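import Pool.Agent.H95.T4.Act
import Pool.Agent.H3.D2G.RecG

/-!
# The activity of the first coordinate at the rate of the class

`act_cls`: in a subclass the velocity of the first coordinate has the rate `al / 16` on all intervals
near zero; `al` is the constant of the class, only the scales depend on the ratio of the intervals.
`act_rec`: for a record.
-/

set_option autoImplicit false

namespace Pool.FDV4

open Finset Real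
open Pool.Agent.H49.Ent Pool.Agent.H32.Dense Pool.STK Pool.KA Pool.KSAT Pool.K2S Pool.PB Pool.S6C
open Pool.GEN Pool.RCD Pool.LA91 Pool.PKG Pool.CHT Pool.GRW
open Pool.REX83 (actN_exists')
open Pool.T4A95 (ActI)

/-- **The activity at the rate of the class.** -/
theorem act_cls {al θ : ℝ} {g₀ : ℝ → ℝ} (hal : 0 < al) (hg₀ : ∀ ε : ℝ, 0 < ε → 0 < g₀ ε)
    (hθ : 0 < θ) : ∃ r₀ : ℝ, 0 < r₀ ∧ r₀ ≤ 1 / 2 ∧ ∀ {n : ℕ} {S : PCl n} {s : Fin n → ℝ}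
      {d : ℕ → ℝ} {e : ℝ} {K₀ : ℕ} {N₁ : ℚ → ℚ → ℝ}, ClX s d al g₀ e K₀ N₁ S →
      ∀ i : Fin n, (i : ℕ) = 0 → ∃ S₁ : PCl n, S₁.Ne ∧
        (∀ (τ : ℝ) (J : ℕ) (F : Fam n J) (A : F.Ω → Prop), S₁.St τ J F A → S.St τ J F A) ∧
        ∀ P Q : ℝ, 0 ≤ P → P < Q → Q ≤ r₀ → θ * Q ≤ Q - P → ActI S₁ i (al / 16) P Q := by
  have hl2 : 0 < Real.log 2 := Real.log_pos (by norm_num)
  obtain ⟨r₀, h0, h0', h1⟩ := Pool.OWN72.act_ptF hal hg₀ hθ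
  refine ⟨r₀, h0, h0', ?_⟩
  intro n S s d e K₀ N₁ hC i hi
  obtain ⟨S₁, Ns, hne, hsub, hN⟩ := actN_exists' hC.ne hC.pos
  have hB₀ : ActB N₁ S i := hC.actb i hi
  have hB : ActB N₁ S₁ i := fun a b c1 c2 c3 x hx => (hB₀ a b c1 c2 c3 x hx).sub hsub
  refine ⟨S₁, hne, hsub, fun P Q hP hPQ hQ hθQ h hh => ?_⟩
  have hQ1 : Q ≤ 1 := by linarith
  have h2 := h1 n S₁ hne ⟨1, one_pos, 0, fun J _ F A hA => hC.pos 1 J F A (hsub 1 J F A hA)⟩ Ns hN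
    i N₁ hC.actm hB P Q hP hPQ hQ hθQ
  have h3 := Pool.SUPA.FF_le (hN.sa {i}) hP hPQ.le hQ1
  have h4 : al / 16 * (Q - P) ≤ Ns {i} P Q := by linarith
  have h5 := hN.coord (fun τ J F A hA => hC.pos τ J F A (hsub τ J F A hA)) i hP
    (by linarith) (by linarith) hQ1 (h * Real.log 2) (mul_pos hh hl2)
  refine Bas.mono 0 h5 ?_
  intro J _ F A h6
  have h7 := (abs_le.1 h6).1
  have h9 : al / 16 * (Q - P) * (Real.log 2 * J) ≤ Ns {i} P Q * (Real.log 2 * J) :=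
    mul_le_mul_of_nonneg_right h4 (by positivity)
  linarith

/-- **The activity at the rate of the class**, for a record. -/
theorem act_rec {al θ : ℝ} {g₀ : ℝ → ℝ} (hal : 0 < al) (hg₀ : ∀ ε : ℝ, 0 < ε → 0 < g₀ ε)
    (hθ : 0 < θ) : ∃ r₀ : ℝ, 0 < r₀ ∧ r₀ ≤ 1 / 2 ∧ ∀ {n : ℕ} {S : PCl n}
      {P : List (Fin n) × Fin n → ℝ → ℝ → ℝ} {θr : ℝ}
      {P₂ : ℕ → List (Fin n) × Fin n → ℝ → ℝ → ℝ} {θ₂ Eb e₂ : ℕ → ℝ} {c : ℕ → Fin n}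
      {Pt : ℝ → ℝ → ℝ} {r : ℝ → ℝ} {h K₀ g : ℝ} {L T : ℕ → ℝ → ℝ → ℝ} {Sl : ℕ → ℝ} {κ : ℕ → Kg}
      {G : Set ℝ} {S₀ N : ℕ} {A V : ℕ → ℝ} {S₂ N' : ℕ} {V' : ℕ → ℝ} {K ε q t : ℝ},
      RecG S al g₀ P θr P₂ θ₂ Eb e₂ c Pt r h K₀ g L T Sl κ G S₀ N A V S₂ N' V' K ε q t →
      ∃ S₁ : PCl n, S₁.Ne ∧
        (∀ (τ : ℝ) (J : ℕ) (F : Fam n J) (A : F.Ω → Prop), S₁.St τ J F A → S.St τ J F A) ∧
        ∀ P Q : ℝ, 0 ≤ P → P < Q → Q ≤ r₀ → θ * Q ≤ Q - P → ActI S₁ (c 0) (al / 16) P Q := by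
  obtain ⟨r₀, h0, h1, H⟩ := act_cls hal hg₀ hθ
  refine ⟨r₀, h0, h1, ?_⟩
  intro n S P θr P₂ θ₂ Eb e₂ c Pt r h K₀ g L T Sl κ G S₀ N A V S₂ N' V' K ε q t R
  obtain ⟨s, d, e, K₁, N₁, hC⟩ := R.clx
  exact H hC (c 0) R.c0

end Pool.FDV4
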