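import Pool.Agent.H64.D1.S
import Pool.Agent.H95.T4.Act

/-!
# The far-dead void for slopes smaller than two: statement

`FdStmt`: in a box with two followers of the slope `s < 2` over a slope-one place the number of the
velocities of the followers between two windows of a grid is not small.
-/

set_option autoImplicit false

namespace Pool.FDV4

open Finset Real MvPolynomial
open Pool.Agent.H49.Ent Pool.Agent.H32.Dense Pool.STK Pool.KA Pool.KSAT Pool.K2S Pool.PB Pool.GEN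
open Pool.S6C Pool.RCD Pool.LA91 Pool.V0F Pool.D164
open Pool.T4A95 (ActI)

/-- **The far-dead void**, `s < 2`. `a`: the activity of `c 0`; `δ₁`: the bound of the number, in units
of the step `ρ` of the grid; `T`: the depth of the far path in units `q`; `N₀`: the bound of `q / ρ`;
`ς₁`: the margin of the digits in units `q`; `Λ`: the room; `e`: the errors. -/
def FdStmt : Prop := ∀ s a : ℝ, 1 < s → s < 2 → 0 < a → ∃ δ₁ : ℝ, 0 < δ₁ ∧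
  ∀ T N₀ ς₁ : ℝ, s + 3 ≤ T → 1 ≤ N₀ → 0 < ς₁ → 12 * N₀ * ς₁ ≤ 1 → ∃ Λ e : ℝ, 1 ≤ Λ ∧ 0 < e ∧
  ∀ {m D : ℕ} {S : PCl m} {c : ℕ → Fin m} {sn sp : ℕ → ℝ → ℝ} {G : Set ℝ}
    {σ hr b o t q x₀ ρ φ' C κ : ℝ} {bl pl : ℕ → ℝ} {L : ℕ} {N : ℕ → ℕ → ℝ},
    S.Ne → (∀ (τ : ℝ) (J : ℕ) (F : Fam m J) (A : F.Ω → Prop), S.St τ J F A → 0 < Pe F.p A) →
    BoxD S c D sn G s σ hr b o t q Λ φ' → φ' ≤ e * q →
    (∀ v ∈ G, t ≤ v → v ≤ t + Λ * q → |sn 0 v - v| ≤ e * q) →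
    -- affine labels at `t` (the frame) and at all windows of the box
    AffD S c sn t (e * q) bl pl →
    (∀ v ∈ G, t ≤ v → v ≤ t + Λ * q → ∃ bl' pl' : ℕ → ℝ, AffD S c sn v (e * q) bl' pl') →
    -- the velocity of `c 0` is free and active
    sp 0 b ≤ sn 0 b - φ' →
    (∀ (P w₁ : ℚ) (x' : ℝ), t ≤ w₁ → x' ∈ G → w₁ ≤ x' → x' ≤ t + Λ * q →
      sn 0 t - t + q ≤ P → (P : ℝ) ≤ sn 0 t - t + Λ * q →
      FrI S c 1 sp b (fun _ => (P : ℝ)) w₁ x' (e * q)) →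
    (∀ w₁ : ℚ, ∃ η : ℝ, RNum S (fun J F => ptr F J) (vg (w₁ : ℝ)) η) →
    (∀ P Q : ℝ, 0 ≤ P → P + e * q ≤ Q → Q ≤ Λ * q → ActI S (c 0) a P Q) →
    -- the grid and the numbers
    (∀ i ≤ L, x₀ + i * ρ ∈ G) → t ≤ x₀ → 0 < ρ → x₀ + L * ρ ≤ t + q → q ≤ N₀ * ρ →
    NumD S c sn bl pl (sn 0 t + T * q) (sn 0 t - t + T * q) (ς₁ * q) C κ L (fun i => x₀ + i * ρ)
      N →
    ∀ i j : ℕ, i ≤ j → j ≤ L → 2 ≤ (s - 1) * ((j : ℝ) - i) → N i j ≤ δ₁ * ρ → False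

end Pool.FDV4
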