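import Pool.Agent.H72.T4T.Num
import Pool.Agent.H4.FDV.S

/-!
# The far bound from the numbers of the velocities, two followers

`far_fd`: the far bound of the velocity of `c 1` over the labels of a window of the grid.
-/

set_option autoImplicit false

namespace Pool.FDV4

open Finset Real MvPolynomial
open Pool.Agent.H49.Ent Pool.Agent.H32.Dense Pool.STK Pool.KA Pool.KSAT Pool.K2S Pool.PB Pool.S6C
open Pool.GEN Pool.RCD Pool.LA91 Pool.OWN83 Pool.FVL91 Pool.D164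
open Pool.CDX (AffL)
open Pool.V0T (LadT)
open Pool.PRC54 (yQ)
open Pool.T462 (FewN BxA nn_fewN)
open Pool.T4D63 (fewN_y)
open Pool.T4N (dgV)

variable {m : ℕ} {S : PCl m} {c : ℕ → Fin m} {sn : ℕ → ℝ → ℝ} {G : Set ℝ} {D : ℕ}
  {s σh hr b o t q Λ φ' : ℝ} {bl pl : ℕ → ℝ}

/-- The first of two velocities. -/
theorem fewN_one {α β γ : ∀ J : ℕ, Fam m J → Type} {f : ∀ (J : ℕ) (F : Fam m J), F.Ω → α J F}
    {g : ∀ (J : ℕ) (F : Fam m J), F.Ω → β J F} {y : ∀ (J : ℕ) (F : Fam m J), F.Ω → γ J F}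
    (hpos : ∀ (τ : ℝ) (J : ℕ) (F : Fam m J) (A : F.Ω → Prop), S.St τ J F A → 0 < Pe F.p A)
    {N : ℕ → ℝ} {δ : ℝ} (hA : AffL S ((range 2).image c) (c 2) (bl 1) (pl 1))
    (H : FewN S f g y (qVel m c 1 2 1 bl pl N) δ) : FewN S f g y (qVel m c 1 1 1 bl pl N) δ := by
  intro h hh
  obtain ⟨e₀, he₀, H1⟩ := H h hh
  refine ⟨e₀, he₀, fun K => Bas.mono 0 (((H1 K).and (hA e₀ he₀)).and (pos_bas hpos)) ?_⟩
  rintro J - F A ⟨⟨h1, V₂, z₂, z₂', G₂, hl⟩, hA⟩ u ⟨hu, hu0⟩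
  obtain ⟨u', hu'⟩ : ∃ u' : F.Ω → ℕ → ℤ, u' = fun ω l => if l = 0 then u ω 0 else
    if l = 1 then cfl 1 J (N 1) (ojet F (c 2) 1 (G₂ (z₂' (slam F ⌊bl 1 * J⌋₊ ω))) ω) else 0 :=
    ⟨_, rfl⟩
  obtain ⟨V, z, hz, h2⟩ := h1 u' ⟨fun l hlt => by
    rcases Nat.lt_or_ge l 1 with h3 | h3
    · obtain rfl : l = 0 := by omega
      have h4 := hu 0 one_pos
      have e1 : (fun ω => u' ω 0) = fun ω => u ω 0 := by
        funext ω
        rw [hu']
        exact if_pos rfl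
      rw [e1]
      exact h4
    · obtain rfl : l = 1 := by omega
      refine ⟨V₂, z₂, z₂', G₂, hl, fun ω _ => ?_⟩
      show u' ω 1 = _
      rw [hu']
      show (if (1 : ℕ) = 0 then u ω 0 else if (1 : ℕ) = 1 then _ else 0) = _
      rw [if_neg one_ne_zero, if_pos rfl], fun ω _ l hl => by
      rw [hu']
      show (if l = 0 then u ω 0 else if l = 1 then _ else 0) = 0
      rw [if_neg (by omega), if_neg (by omega)]⟩
  refine ⟨V, z, hz, (CH_mono_left (isLaw_cond F.isLaw hA).nonneg fun ω ω' hω hω' e => ?_).trans h2⟩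
  have e1 : u' ω = u' ω' := (Prod.ext_iff.1 e).1
  funext l
  by_cases hl : l < 1
  · obtain rfl : l = 0 := by omega
    have e2 := congrFun e1 0
    rw [hu'] at e2
    exact e2
  · rw [hu0 ω (of_cond_pos hω) l hl, hu0 ω' (of_cond_pos hω') l hl]

/-- The two targets of one slope. -/
theorem ladT_of (L : Pool.V0R.LadR S c 1 2 sn G b o φ') : LadT S c 1 1 sn G b o φ' :=
  ⟨L.take (by norm_num), fun v hv v' hv' h1 h2 h3 =>
    L.eq 2 (by norm_num) (by norm_num) v hv v' hv' h1 h2 h3⟩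

/-- The data of the box, from `BoxD`. -/
theorem bxA_fd {e₁ σ T : ℝ} (Bx : BoxD S c D sn G s σh hr b o t q Λ φ') (hs : 1 < s)
    (hΛ : s + 4 ≤ Λ) (he₁ : 0 < e₁) (hφ : φ' ≤ e₁) (hσ : 40 * (s + 1) * e₁ ≤ σ) (hσq : σ ≤ q)
    (hT : s + 3 ≤ T) (hA : AffD S c sn t e₁ bl pl)
    (hAll : ∀ v ∈ G, t ≤ v → v ≤ t + q → ∃ bl' pl' : ℕ → ℝ, AffD S c sn v e₁ bl' pl') :
    BxA S c 1 sn G b o s t q φ' e₁ σ e₁ (sn 0 t + T * q) (sn 0 t - t + T * q) bl pl := by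
  have hq := Bx.u0
  have hφ0 := Bx.lad.φ0
  have a1 := Bx.bw
  have a2 := Bx.wo
  have a3 := Bx.o1
  have hΛ' := mul_le_mul_of_nonneg_right hΛ hq.le
  have hΛq : (s + 4) * q = s * q + 4 * q := by ring
  have hsq : 0 < s * q := by positivity
  rw [hΛq] at hΛ'
  have b1 : 40 * (s + 1) * e₁ = 40 * (s * e₁) + 40 * e₁ := by ring
  have b2 : 0 < s * e₁ := by positivity
  have b4 : s * φ' ≤ s * e₁ := mul_le_mul_of_nonneg_left hφ (by linarith)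
  have b5 : (s + 3) * q ≤ T * q := mul_le_mul_of_nonneg_right hT hq.le
  exact {
    L := ladT_of Bx.lad
    tG := Bx.wG
    bt := by linarith
    q0 := hq
    tqo := by linarith
    s0 := by linarith
    κ0 := he₁.le
    σ₀0 := he₁
    lin := fun l hl v hv h1 h2 => Bx.lin (1 + l) (by omega) (by omega) v hv (by linarith)
      (by linarith)
    σ1 := by
      push_cast
      linarith
    P1 := by linarith
    l1 := by linarith
    o1 := by linarith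
    la := fun l hl => hA l (by omega)
    lv := fun v hv h1 h2 => by
      obtain ⟨bl', pl', h3⟩ := hAll v hv h1 h2
      exact ⟨bl', pl', fun l hl => h3 l (by omega)⟩ }

/-- **The far bound** over the labels of the window `x i`. -/
theorem far_fd {e₁ σ TV T C κ x₀ ρ : ℝ} {N : ℕ → ℕ → ℝ} {L i j : ℕ}
    (Bx : BoxD S c D sn G s σh hr b o t q Λ φ') (hs : 1 < s) (hΛ : s + 4 ≤ Λ)
    (he₁ : 0 < e₁) (hφ : φ' ≤ e₁) (hσ : 40 * (s + 1) * e₁ ≤ σ) (hσq : σ ≤ q) (hT : s + 3 ≤ TV)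
    (hA : AffD S c sn t e₁ bl pl)
    (hAll : ∀ v ∈ G, t ≤ v → v ≤ t + q → ∃ bl' pl' : ℕ → ℝ, AffD S c sn v e₁ bl' pl')
    (hsn : ∀ v ∈ G, t ≤ v → v ≤ t + q → |sn 0 v - v| ≤ e₁)
    (hG : ∀ i ≤ L, x₀ + i * ρ ∈ G) (hx₀ : t ≤ x₀) (hρ : 0 < ρ) (hx₁ : x₀ + L * ρ ≤ t + q)
    (hN : NumD S c sn bl pl (sn 0 t + TV * q) (sn 0 t - t + TV * q) σ C κ L
      (fun i => x₀ + i * ρ) N)
    (hij : i ≤ j) (hj : j ≤ L) (hs2 : 2 ≤ (s - 1) * ((j : ℝ) - i)) (hσρ : 4 * σ + 4 * e₁ ≤ ρ)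
    (hTT : (TV + 1) * q ≤ T * ρ) {bl' pl' : ℕ → ℝ}
    (hA' : AffD S c sn (x₀ + i * ρ) e₁ bl' pl') :
    ∃ Nf : ℕ → ℝ, (∀ l ≤ 0, sn (1 + l) (x₀ + i * ρ) - (x₀ + i * ρ) + (3 / 2) * ρ ≤ Nf l) ∧
      FewN S (fun J F => ptr F J) (vg (x₀ + i * ρ)) (yQ ((range 1).image c)
        (sn 0 (x₀ + i * ρ) + T * ρ) (sn 0 (x₀ + i * ρ) - (x₀ + i * ρ) + T * ρ))
        (qVel m c 1 1 1 bl' pl' Nf) (N i j) := by
  have B := bxA_fd Bx hs hΛ he₁ hφ hσ hσq hT hA hAll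
  have hpos := Bx.lad.pos
  have hq := Bx.u0
  have hij' : (i : ℝ) ≤ j := by exact_mod_cast hij
  have hjL : (j : ℝ) ≤ L := by exact_mod_cast hj
  have hi0 : (0 : ℝ) ≤ i := Nat.cast_nonneg i
  obtain ⟨y, hy⟩ : ∃ y, y = x₀ + i * ρ := ⟨_, rfl⟩
  obtain ⟨x, hx⟩ : ∃ x, x = x₀ + j * ρ := ⟨_, rfl⟩
  have h1 : (i : ℝ) * ρ ≤ j * ρ := mul_le_mul_of_nonneg_right hij' hρ.le
  have h2 : (j : ℝ) * ρ ≤ L * ρ := mul_le_mul_of_nonneg_right hjL hρ.le
  have h3 : 0 ≤ (i : ℝ) * ρ := by positivity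
  have hyG : y ∈ G := by rw [hy]; exact hG i (hij.trans hj)
  have hxG : x ∈ G := by rw [hx]; exact hG j hj
  have hty : t ≤ y := by linarith
  have hyx : y ≤ x := by linarith
  have hxq : x ≤ t + q := by linarith
  obtain ⟨η, hη⟩ := hN.rn i (hij.trans hj)
  have H := nn_fewN hpos (hN.ev i j hij hj) hη
  simp only [← hy, ← hx] at H hA' ⊢
  have H2 := Pool.T4T72.cvt_box B hxG hyG hty hyx hxq (fun l hl => hA' l (by omega)) H
  have H3 := fewN_one hpos (hA' 1 (by norm_num)).2.2 H2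
  have n1 := abs_le.1 (hsn y hyG hty (hyx.trans hxq))
  have n0 := abs_le.1 (hsn t Bx.wG le_rfl (by linarith))
  have he : 2 * e₁ ≤ q := by
    have b1 : 40 * (s + 1) * e₁ = 40 * (s * e₁) + 40 * e₁ := by ring
    have b2 : 0 < s * e₁ := mul_pos (by linarith) he₁
    linarith
  refine ⟨dgV sn σ x, fun l hl => ?_, fewN_y hpos ?_ ?_ H3⟩
  · obtain rfl : l = 0 := by omega
    have a1 := abs_le.1 (B.lin 0 (by omega) x hxG (hty.trans hyx) hxq)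
    have a2 := abs_le.1 (B.lin 0 (by omega) y hyG hty (hyx.trans hxq))
    have a4 : 2 * ρ ≤ (s - 1) * ((j : ℝ) - i) * ρ := mul_le_mul_of_nonneg_right hs2 hρ.le
    have e1 : (s - 1) * ((j : ℝ) - i) * ρ = s * (x - t) - s * (y - t) - (x - y) := by
      rw [hx, hy]
      ring
    have hσ0 : 0 ≤ σ := by
      have : 0 ≤ 40 * (s + 1) * e₁ := by positivity
      linarith
    unfold dgV
    push_cast
    linarith [a1.1, a2.2]
  · linarith [n0.2, n1.1]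
  · linarith [n0.2, n1.1]

end Pool.FDV4
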