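import Pool.Agent.H4.FDV.Lbf
import Pool.Agent.H97.GAIN.Lab
import Pool.Agent.H4.T4.Frd

/-!
# The gain from few velocities

`gain_bas`: if the velocities of `c 1` behind the digits of the window `w` are few given the near path
of `c 0`, and `c 1` has an affine label at a later window, there is a gain at a rate.
-/

set_option autoImplicit false

namespace Pool.FDV4

open Finset Real MvPolynomial
open Pool.Agent.H49.Ent Pool.Agent.H32.Dense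
open Pool.STK hiding pr2
open Pool.KA Pool.KSAT Pool.K2S Pool.PB Pool.GEN
open Pool.S6C Pool.LA91 Pool.RCD Pool.MM97 Pool.GN97
open Pool.OWN72 (Cl1 ClA)
open Pool.JVE (DpI)
open Pool.GRD (LbP)
open Pool.BFL (Pb)
open Pool.FVL91 (coe1 cfl cfl_eq qVel qAf)
open Pool.V0F (cR)
open Pool.PRC54 (yQ)
open Pool.CDX (AffL)
open Pool.T462 (FewN)

variable {m : ℕ}

/-- The events of most of the mass. -/
theorem pe_good {Ω : Type} [Fintype Ω] {p : Ω → ℝ} (hp : IsLaw p) {A G₁ G₂ : Ω → Prop}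
    (hA : 0 < Pe p A) {δ : ℝ}
    (h1 : Pb (Pool.Agent.H49.Ent.cond p A True) (fun ω => ¬ G₁ ω) ≤ δ)
    (h2 : Pb (Pool.Agent.H49.Ent.cond p A True) (fun ω => ¬ G₂ ω) ≤ δ) :
    (1 - 2 * δ) * Pe p A ≤ Pe p (fun ω => A ω ∧ (G₁ ω ∧ G₂ ω)) := by
  classical
  rw [Pb_cond hA, div_le_iff₀ hA] at h1 h2
  have key : Pe p A ≤ Pe p (fun ω => A ω ∧ (G₁ ω ∧ G₂ ω)) + Pe p (fun ω => A ω ∧ ¬ G₁ ω) +
      Pe p (fun ω => A ω ∧ ¬ G₂ ω) := by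
    rw [Pe_eq, Pe_eq, Pe_eq, Pe_eq, ← Finset.sum_add_distrib, ← Finset.sum_add_distrib]
    refine Finset.sum_le_sum fun ω _ => ?_
    have h0 := hp.nonneg ω
    by_cases a : A ω <;> by_cases g1 : G₁ ω <;> by_cases g2 : G₂ ω <;> simp [a, g1, g2, h0]
  linarith

/-- **The code of the near velocity** given the directions of `c 0` and a record. -/
theorem code_few {J : ℕ} {F : Fam m J} {q : F.Ω → ℝ} (hq : IsLaw q) {c : ℕ → Fin m} {V₁ V₂ U : Type}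
    {z₁ : F.Ω → V₁} {zc : F.Ω → V₂} {u : F.Ω → U} {Pn ln P : ℝ} (hlP : ln ≤ P) {r₁ r₂ : ℝ}
    (hz : Det q zc z₁)
    (h1 : CH q u (fun ω => (z₁ ω, yQ ((range 1).image c) Pn ln J F ω)) ≤ r₁)
    (h2 : CH q (fun ω => F.X ⌊Pn * J⌋₊ ω (c 0)) (fun ω => (zc ω, F.W ω)) ≤ r₂) :
    CH q u (fun ω => (F.D ⌊P * J⌋₊ ω (c 0), (zc ω, F.W ω))) ≤ r₁ + r₂ := by
  have h0 := hq.nonneg
  have hJ0 : (0 : ℝ) ≤ J := Nat.cast_nonneg J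
  have s1 := CH_le_add h0 u (fun ω => F.X ⌊Pn * J⌋₊ ω (c 0))
    (fun ω => (F.D ⌊P * J⌋₊ ω (c 0), (zc ω, F.W ω)))
  have s2 : CH q (fun ω => F.X ⌊Pn * J⌋₊ ω (c 0))
      (fun ω => (F.D ⌊P * J⌋₊ ω (c 0), (zc ω, F.W ω))) ≤ r₂ :=
    (CH_mono_cond h0 fun ω ω' _ _ e => (Prod.ext_iff.1 e).2).trans h2
  have s3 : CH q u (fun ω => (F.X ⌊Pn * J⌋₊ ω (c 0),
      (F.D ⌊P * J⌋₊ ω (c 0), (zc ω, F.W ω)))) ≤ r₁ := by
    refine (CH_mono_cond h0 fun ω ω' a b e => ?_).trans h1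
    simp only [Prod.mk.injEq] at e
    obtain ⟨e1, e2, e3, e4⟩ := e
    refine Prod.ext (hz ω ω' a b e3) ?_
    have e5 : F.T ω = F.T ω' := (Prod.ext_iff.1 e4).1
    have e6 : F.D ⌊ln * J⌋₊ ω (c 0) = F.D ⌊ln * J⌋₊ ω' (c 0) :=
      fl_coarse (Nat.floor_le_floor (mul_le_mul_of_nonneg_right hlP hJ0)) e2
    show Pool.PRC54.yI _ _ _ F ω = Pool.PRC54.yI _ _ _ F ω'
    unfold Pool.PRC54.yI
    refine Prod.ext e5 (Prod.ext (funext fun i => ?_) (funext fun i => ?_))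
    · by_cases hi : i ∈ (range 1).image c
      · have hi' : i = c 0 := by simpa using hi
        simp only [if_pos hi]
        rw [hi']
        exact e1
      · simp only [if_neg hi]
    · by_cases hi : i ∈ (range 1).image c
      · have hi' : i = c 0 := by simpa using hi
        simp only [if_pos hi]
        rw [hi']
        exact e6
      · simp only [if_neg hi]
  linarith

/-- **The digits of the own velocity** from the code. -/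
theorem own_few {J : ℕ} {F : Fam m J} {q : F.Ω → ℝ} (hq : IsLaw q) {T : Type} {Y : F.Ω → T}
    {u : F.Ω → ℕ → ℤ} {o : F.Ω → ℝ} {N : ℝ} {Mn : ℕ} (hMn : (Mn : ℝ) ≤ N * J)
    (hu : ∀ ω, 0 < q ω → u ω 0 = cfl 1 J N (o ω)) (ho : ∀ ω, 0 < q ω → |o ω| ≤ 1) {r : ℝ}
    (h : CH q u Y ≤ r) :
    CH q (fun ω => ⌊(2 : ℝ) ^ Mn * o ω⌋) Y ≤ r + Real.log 5 := by
  have h0 := hq.nonneg
  have hJ0 : (0 : ℝ) ≤ J := Nat.cast_nonneg J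
  have hp2 : (0 : ℝ) < 2 ^ (N * J) := Real.rpow_pos_of_pos (by norm_num) _
  have hpM : (0 : ℝ) < 2 ^ Mn := by positivity
  have hle : (2 : ℝ) ^ Mn ≤ 2 ^ (N * J) := by
    rw [← Real.rpow_natCast]
    exact Real.rpow_le_rpow_of_exponent_le (by norm_num) hMn
  have s1 := CH_le_add h0 (fun ω => ⌊(2 : ℝ) ^ Mn * o ω⌋) u Y
  have s2 : CH q (fun ω => ⌊(2 : ℝ) ^ Mn * o ω⌋) (fun ω => (u ω, Y ω)) ≤ Real.log 5 := by
    refine (Pool.T4J.ch_one (K := 2) hq _ _ fun ω ω' a b e => ?_).trans (le_of_eq (by norm_num))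
    have e1 : u ω 0 = u ω' 0 := congrFun (Prod.ext_iff.1 e).1 0
    have one : ∀ x : ℝ, |x| ≤ 1 → |x| ≤ 2 ^ ((((1 : ℕ) : ℝ) + 1) * J) := fun x hx =>
      hx.trans (Real.one_le_rpow (by norm_num) (by positivity))
    rw [hu ω a, hu ω' b, cfl_eq (one _ (ho ω a)), cfl_eq (one _ (ho ω' b))] at e1
    have e2 := (Int.abs_sub_lt_one_of_floor_eq_floor e1).le
    rw [← mul_sub, abs_mul, abs_of_pos hp2] at e2
    have e3 : |(2 : ℝ) ^ Mn * o ω - 2 ^ Mn * o ω'| ≤ 1 := by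
      rw [← mul_sub, abs_mul, abs_of_pos hpM]
      exact (mul_le_mul_of_nonneg_right hle (abs_nonneg _)).trans e2
    exact (Pool.T4J.fl_sub e3).trans (by norm_num)
  linarith

/-- The size of the own velocity from the precision. -/
theorem sz_own {J : ℕ} {w p ε x : ℝ} {P : ℕ} (hP : (p - ε) * J ≤ P + 1) (hε : 1 ≤ ε * J)
    (h0 : w + 3 * ε ≤ p) (hx : |x| ≤ 2 ^ ((ε + ((1 : ℕ) : ℝ) * w) * J) * (1 / 2 ^ P)) :
    |x| ≤ 1 / 2 ^ ⌊(p - w - 3 * ε) * J⌋₊ := by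
  have hJ0 : (0 : ℝ) ≤ J := Nat.cast_nonneg J
  have hp0 : 0 ≤ (p - w - 3 * ε) * J := mul_nonneg (by linarith) hJ0
  have f1 := Nat.floor_le hp0
  refine hx.trans ?_
  rw [mul_one_div, div_le_div_iff₀ (by positivity) (by positivity), one_mul,
    ← Real.rpow_natCast 2 P, ← Real.rpow_natCast 2 ⌊(p - w - 3 * ε) * J⌋₊,
    ← Real.rpow_add (by norm_num)]
  refine Real.rpow_le_rpow_of_exponent_le (by norm_num) ?_
  push_cast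
  linarith

/-- **A gain from few velocities.** -/
theorem gain_bas {S : PCl m} {C₀ : ℝ} (htm : TmC S C₀) {c : ℕ → Fin m}
    {w w₁ xG W v' W' : ℝ} {bl pl Nn : ℕ → ℝ} {b₂ p₂ Pn ln df γ cγ ε M P e b p₀ r₀ : ℝ}
    (hw0 : 0 ≤ w) (hw1 : w < 1) (hbw : bl 0 ≤ w)
    (hA1 : AffL S ((range 1).image c) (c 1) (bl 0) (pl 0))
    (hv0 : 0 ≤ v') (hv1 : v' < 1) (hbv : b₂ ≤ v')
    (hA2 : AffL S ((range 1).image c) (c 1) b₂ p₂)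
    (hww : w ≤ W) (hw₁W : w₁ ≤ W) (hxW : xG ≤ W) (hWW : W ≤ W') (hvW : v' ≤ W') (hW1 : W' ≤ 1)
    (hnear : FewN S (fun J F => ptr F J) (vg w₁) (yQ ((range 1).image c) Pn ln)
      (qVel m c 1 1 1 bl pl Nn) df)
    (hatt : Att S ((range 0).image c) (c 0) xG p₀ r₀) (hPn : Pn < p₀)
    (hPn0 : 0 ≤ Pn)
    (hcγ : 0 < cγ) (hγ : 0 ≤ γ) (hact : Bas S (fun J F A => cγ * J ≤
      CH (Pool.Agent.H49.Ent.cond F.p A True) (fun ω => F.D ⌊γ * J⌋₊ ω (c 0)) (ptr F J)))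
    (hε : 0 < ε) (hM0 : 0 ≤ M) (hMN : M ≤ Nn 0) (hlP : ln ≤ P)
    (h1 : w + 3 * ε ≤ pl 0) (h2 : v' + M + 4 * ε ≤ p₂)
    (h3 : M + γ + 5 * ε ≤ P + (pl 0 - w)) (h4 : γ + ε ≤ P) (h5 : 2 * γ + ε ≤ e) (hb : df < b) :
    Bas S (fun J F A => ∃ (B : F.Ω → Prop) (a : PtT F → Fin m → ℝ) (c' p q : PtT F → ℝ)
        (V : Type) (z : F.Ω → V), Sub B A ∧ 1 / 4 * Pe F.p A ≤ Pe F.p B ∧
        GainR F (c 0) {c 0} (c 1) ⌊W * J⌋₊ ⌊W' * J⌋₊ ⌊e * J⌋₊ ⌊M * J⌋₊ ⌊P * J⌋₊ ⌊P * J⌋₊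
          (b * J) B a c' p q z) := by
  classical
  have hpos := pos_of htm
  have hI : (range 1).image c = {c 0} := by simp
  have hW01 : W ≤ 1 := hWW.trans hW1
  obtain ⟨h, hh⟩ : ∃ h, h = (b - df) / 2 := ⟨_, rfl⟩
  have hh0 : 0 < h := by rw [hh]; linarith
  have hq4 : (0 : ℝ) < 1 / 4 := by norm_num
  obtain ⟨e₀, he₀, Hn⟩ := hnear h hh0
  obtain ⟨ε₁, hε₁⟩ : ∃ ε₁, ε₁ = min ε e₀ := ⟨_, rfl⟩
  have hε₁0 : 0 < ε₁ := by rw [hε₁]; exact lt_min hε he₀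
  have hε₁ε : ε₁ ≤ ε := by rw [hε₁]; exact min_le_left _ _
  have hε₁e : ε₁ ≤ e₀ := by rw [hε₁]; exact min_le_right _ _
  have Hnear := Pool.VG83.bas_ev (Hn 0) hq4
  have Hl1 := hA1 ε₁ hε₁0
  have Hl2 := hA2 ε hε
  have Ho1 := own_cls htm ((range 1).image c) (c 1) 1 1 hw0 hw1 (show (0 : ℝ) < 1 / 8 by norm_num) hε
  have Ho2 := own_cls htm ((range 1).image c) (c 1) 1 1 hv0 hv1 (show (0 : ℝ) < 1 / 8 by norm_num) hε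
  have Hspr := Pool.VG83.bas_ev (spr_at hpos hcγ (show (0 : ℝ) < 1 / 8 by norm_num) hact) hq4
  have Hhx := Pool.NS71.hx_ev hpos hatt hPn hq4
  obtain ⟨J₁, hJ₁⟩ := exists_nat_ge (((m : ℝ) + 12) / ε)
  obtain ⟨J₂, hJ₂⟩ := exists_nat_ge ((Real.log 7 + Real.log 5) / h)
  refine Bas.mono (J₁ + J₂ + 1) ((((Hnear.and Hl1).and (Hl2.and Ho1)).and
    ((Ho2.and Hspr).and Hhx)).and (pos_bas hpos)) ?_
  rintro J hJ F A ⟨⟨⟨⟨Hnear, V₁, z₁, z₁', G₁, hl1⟩, ⟨V₂, z₂, z₂', G₂, hl2⟩, Ho1⟩,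
    ⟨Ho2, Hspr⟩, Hhx⟩, hA⟩
  have hJ0 : (0 : ℝ) ≤ J := Nat.cast_nonneg J
  have cast : ∀ k : ℕ, k ≤ J₁ + J₂ → (k : ℝ) ≤ J := fun k hk => by
    exact_mod_cast (show k ≤ J by omega)
  have c1 : (m : ℝ) + 12 ≤ ε * J := by
    have h2 := hJ₁.trans (cast J₁ (by omega))
    rw [div_le_iff₀ hε] at h2
    linarith only [h2]
  have c2 : Real.log 7 + Real.log 5 ≤ h * J := by
    have h2 := hJ₂.trans (cast J₂ (by omega))
    rw [div_le_iff₀ hh0] at h2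
    linarith only [h2]
  have hm0 : (0 : ℝ) ≤ m := Nat.cast_nonneg m
  have hεJ : 1 ≤ ε * J := by linarith only [c1, hm0]
  have fl : ∀ {x y : ℝ}, x ≤ y → ⌊x * (J : ℝ)⌋₊ ≤ ⌊y * (J : ℝ)⌋₊ := fun h =>
    Nat.floor_le_floor (mul_le_mul_of_nonneg_right h hJ0)
  have flJ : ∀ {x : ℝ}, x ≤ 1 → ⌊x * (J : ℝ)⌋₊ ≤ J := fun {x} h => by
    refine Nat.floor_le_of_le ?_
    calc x * (J : ℝ) ≤ 1 * J := mul_le_mul_of_nonneg_right h hJ0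
      _ = J := one_mul _
  have hwJ := flJ hw1.le
  have hvJ := flJ hv1.le
  have hWJ := flJ hW01
  have hW'J := flJ hW1
  -- the labels at the two windows
  have k1 := hl1.win (fl hbw) hwJ
  have k2 := hl2.win (fl hbv) hvJ
  have e1 : ∀ ω, z₁' ((slam F ⌊w * J⌋₊ ω).1, (slam F ⌊w * J⌋₊ ω).2.1,
      (slam F ⌊w * J⌋₊ ω).2.2 / 2 ^ (⌊w * J⌋₊ - ⌊bl 0 * J⌋₊)) = z₁' (slam F ⌊bl 0 * J⌋₊ ω) :=
    fun ω => by rw [← slam_coarse F (fl hbw) hwJ ω]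
  have e2 : ∀ ω, z₂' ((slam F ⌊v' * J⌋₊ ω).1, (slam F ⌊v' * J⌋₊ ω).2.1,
      (slam F ⌊v' * J⌋₊ ω).2.2 / 2 ^ (⌊v' * J⌋₊ - ⌊b₂ * J⌋₊)) = z₂' (slam F ⌊b₂ * J⌋₊ ω) :=
    fun ω => by rw [← slam_coarse F (fl hbv) hvJ ω]
  have g1 := Ho1 _ _ _ _ _ k1
  have g2 := Ho2 _ _ _ _ _ k2
  simp only [e1] at g1
  simp only [e2] at g2
  -- the coefficients
  obtain ⟨a₁, ha₁⟩ : ∃ a₁ : PtT F → ℝ, a₁ = fun s => coe1 (c 0) (G₁ (z₁ s)) := ⟨_, rfl⟩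
  obtain ⟨t₁, ht₁⟩ : ∃ t₁ : PtT F → ℝ, t₁ = fun s => coeT (G₁ (z₁ s)) := ⟨_, rfl⟩
  obtain ⟨a₂, ha₂⟩ : ∃ a₂ : PtT F → ℝ, a₂ = fun s => coe1 (c 0) (G₂ (z₂ s)) := ⟨_, rfl⟩
  obtain ⟨t₂, ht₂⟩ : ∃ t₂ : PtT F → ℝ, t₂ = fun s => coeT (G₂ (z₂ s)) := ⟨_, rfl⟩
  have ca₁ : Cl1 F A ⌊w * J⌋₊ a₁ := by
    rw [ha₁]
    exact (coe_cl hl1.cls fun v => coe1 (c 0) (G₁ v)).win (fl hbw) hwJ
  have ct₁ : Cl1 F A ⌊w * J⌋₊ t₁ := by
    rw [ht₁]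
    exact (coe_cl hl1.cls fun v => coeT (G₁ v)).win (fl hbw) hwJ
  have ca₂ : Cl1 F A ⌊W' * J⌋₊ a₂ := by
    rw [ha₂]
    exact (coe_cl hl2.cls fun v => coe1 (c 0) (G₂ v)).win (fl (hbv.trans hvW)) hW'J
  have ct₂ : Cl1 F A ⌊W' * J⌋₊ t₂ := by
    rw [ht₂]
    exact (coe_cl hl2.cls fun v => coeT (G₂ v)).win (fl (hbv.trans hvW)) hW'J
  have oj1 : ∀ ω, A ω → ojet F (c 1) 1 (G₁ (z₁' (slam F ⌊bl 0 * J⌋₊ ω))) ω =
      F.d ω (c 1) - t₁ (ptr F J ω) - a₁ (ptr F J ω) * F.d ω (c 0) := fun ω hω => by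
    rw [ojet_af1 F hI (hl1.deg _) (hl1.dep _) ω, ha₁, ht₁]
    show _ = F.d ω (c 1) - coeT (G₁ (z₁ (ptr F J ω))) -
      coe1 (c 0) (G₁ (z₁ (ptr F J ω))) * F.d ω (c 0)
    rw [hl1.cls ω hω]
  have oj2 : ∀ ω, A ω → ojet F (c 1) 1 (G₂ (z₂' (slam F ⌊b₂ * J⌋₊ ω))) ω =
      F.d ω (c 1) - t₂ (ptr F J ω) - a₂ (ptr F J ω) * F.d ω (c 0) := fun ω hω => by
    rw [ojet_af1 F hI (hl2.deg _) (hl2.dep _) ω, ha₂, ht₂]
    show _ = F.d ω (c 1) - coeT (G₂ (z₂ (ptr F J ω))) -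
      coe1 (c 0) (G₂ (z₂ (ptr F J ω))) * F.d ω (c 0)
    rw [hl2.cls ω hω]
  -- the numbers
  obtain ⟨Nb, hNb⟩ : ∃ Nb, Nb = ⌊(pl 0 - w - 3 * ε) * (J : ℝ)⌋₊ := ⟨_, rfl⟩
  obtain ⟨Nd, hNd⟩ : ∃ Nd, Nd = ⌊(p₂ - v' - 3 * ε) * (J : ℝ)⌋₊ := ⟨_, rfl⟩
  obtain ⟨Γ, hΓ⟩ : ∃ Γ, Γ = ⌊γ * (J : ℝ)⌋₊ := ⟨_, rfl⟩
  obtain ⟨Mn, hMn⟩ : ∃ Mn, Mn = ⌊M * (J : ℝ)⌋₊ := ⟨_, rfl⟩
  have f1 : (Mn : ℝ) ≤ M * J := by rw [hMn]; exact Nat.floor_le (mul_nonneg hM0 hJ0)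
  have f2 : (Γ : ℝ) ≤ γ * J := by rw [hΓ]; exact Nat.floor_le (mul_nonneg hγ hJ0)
  have f3 : (pl 0 - w - 3 * ε) * (J : ℝ) - 1 < Nb := by rw [hNb]; exact Nat.sub_one_lt_floor _
  have f4 : (p₂ - v' - 3 * ε) * (J : ℝ) - 1 < Nd := by rw [hNd]; exact Nat.sub_one_lt_floor _
  have f5 : P * (J : ℝ) - 1 < ⌊P * (J : ℝ)⌋₊ := Nat.sub_one_lt_floor _
  have f6 : e * (J : ℝ) - 1 < ⌊e * (J : ℝ)⌋₊ := Nat.sub_one_lt_floor _
  have hlt1 := (Nat.lt_floor_add_one ((pl 0 - ε₁) * (J : ℝ))).le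
  have hlt2 := (Nat.lt_floor_add_one ((p₂ - ε) * (J : ℝ))).le
  have hP1 : (pl 0 - ε) * (J : ℝ) ≤ ⌊(pl 0 - ε₁) * (J : ℝ)⌋₊ + 1 :=
    (mul_le_mul_of_nonneg_right (by linarith) hJ0).trans hlt1
  have r2 := mul_le_mul_of_nonneg_right h2 hJ0
  have r3 := mul_le_mul_of_nonneg_right h3 hJ0
  have r4 := mul_le_mul_of_nonneg_right h4 hJ0
  have r5 := mul_le_mul_of_nonneg_right h5 hJ0
  have n1 : Mn + 2 ≤ Nd := by
    have : ((Mn + 2 : ℕ) : ℝ) < (Nd : ℝ) + 1 := by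
      push_cast
      linarith only [f1, f4, r2, c1, hm0]
    have h' : Mn + 2 < Nd + 1 := by exact_mod_cast this
    omega
  have n3 : Mn + Γ + 2 ≤ ⌊P * (J : ℝ)⌋₊ + Nb := by
    have : ((Mn + Γ + 2 : ℕ) : ℝ) ≤ ((⌊P * (J : ℝ)⌋₊ + Nb : ℕ) : ℝ) := by
      push_cast
      linarith only [f1, f2, f3, f5, r3, c1, hm0]
    exact_mod_cast this
  have n4 : Γ + 3 ≤ ⌊P * (J : ℝ)⌋₊ := by
    have : ((Γ + 3 : ℕ) : ℝ) ≤ ((⌊P * (J : ℝ)⌋₊ : ℕ) : ℝ) := by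
      push_cast
      linarith only [f2, f5, r4, c1, hm0]
    exact_mod_cast this
  have n5 : 2 * (Γ + 3) + m + 3 ≤ ⌊e * (J : ℝ)⌋₊ := by
    have : ((2 * (Γ + 3) + m + 3 : ℕ) : ℝ) ≤ ((⌊e * (J : ℝ)⌋₊ : ℕ) : ℝ) := by
      push_cast
      linarith only [f2, f6, r5, c1, hm0]
    exact_mod_cast this
  have pNb : (0 : ℝ) < 1 / 2 ^ Nb := by positivity
  have pNd : (0 : ℝ) < 1 / 2 ^ Nd := by positivity
  have uNb : (1 : ℝ) / 2 ^ Nb ≤ 1 := by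
    rw [div_le_one (by positivity)]
    exact one_le_pow₀ (by norm_num)
  have uNd : (1 : ℝ) / 2 ^ Nd ≤ 1 := by
    rw [div_le_one (by positivity)]
    exact one_le_pow₀ (by norm_num)
  -- the first part: the own velocities
  have m1 := pe_good F.isLaw hA g1 g2
  obtain ⟨B₁, hB₁⟩ : ∃ B₁ : F.Ω → Prop, B₁ = fun ω => A ω ∧
    (|ojet F (c 1) 1 (G₁ (z₁' (slam F ⌊bl 0 * J⌋₊ ω))) ω| ≤
      2 ^ ((ε + ((1 : ℕ) : ℝ) * w) * J) * (1 / 2 ^ ⌊(pl 0 - ε₁) * (J : ℝ)⌋₊) ∧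
    |ojet F (c 1) 1 (G₂ (z₂' (slam F ⌊b₂ * J⌋₊ ω))) ω| ≤
      2 ^ ((ε + ((1 : ℕ) : ℝ) * v') * J) * (1 / 2 ^ ⌊(p₂ - ε) * (J : ℝ)⌋₊)) := ⟨_, rfl⟩
  rw [← hB₁] at m1
  have sB₁ : Sub B₁ A := fun ω hω => by
    rw [hB₁] at hω
    exact hω.1
  have oB₁ : ∀ ω, B₁ ω → |F.d ω (c 1) - t₁ (ptr F J ω) - a₁ (ptr F J ω) * F.d ω (c 0)| ≤
      1 / 2 ^ Nb ∧ |F.d ω (c 1) - t₂ (ptr F J ω) - a₂ (ptr F J ω) * F.d ω (c 0)| ≤
      1 / 2 ^ Nd := by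
    intro ω hω
    rw [hB₁] at hω
    rw [← oj1 ω hω.1, ← oj2 ω hω.1, hNb, hNd]
    exact ⟨sz_own hP1 hεJ h1 hω.2.1, sz_own hlt2 hεJ (by linarith) hω.2.2⟩
  have hA' := hA.le
  have M1 : 1 / 4 * Pe F.p A ≤ Pe F.p B₁ := by linarith
  -- the sizes of the coefficients
  obtain ⟨B₂, sB₂, m2, oB₂⟩ := Hspr B₁ sB₁ M1 t₁ a₁ 2 (by norm_num) (fun ω hω => by
    have b1 := abs_le.1 (oB₁ ω hω).1
    have b2 := abs_le.1 (F.dir ω (c 1))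
    rw [abs_le]
    constructor
    · linarith only [b1.1, b1.2, b2.1, b2.2, uNb]
    · linarith only [b1.1, b1.2, b2.1, b2.2, uNb])
  have M2 : 1 / 4 * Pe F.p A ≤ Pe F.p B₂ := by linarith
  obtain ⟨B₃, sB₃, m3, oB₃⟩ := Hspr B₂ (fun ω hω => sB₁ ω (sB₂ ω hω)) M2 t₂ a₂ 2 (by norm_num)
    (fun ω hω => by
      have b1 := abs_le.1 (oB₁ ω (sB₂ ω hω)).2
      have b2 := abs_le.1 (F.dir ω (c 1))
      rw [abs_le]
      constructor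
      · linarith only [b1.1, b1.2, b2.1, b2.2, uNd]
      · linarith only [b1.1, b1.2, b2.1, b2.2, uNd])
  have M3 : 1 / 4 * Pe F.p A ≤ Pe F.p B₃ := by linarith
  obtain ⟨B, sB, m4, oB₄⟩ := Hspr B₃ (fun ω hω => sB₁ ω (sB₂ ω (sB₃ ω hω))) M3
    (fun s => t₂ s - t₁ s) (fun s => a₂ s - a₁ s) (1 / 2 ^ Nb + 1 / 2 ^ Nd) (by positivity)
    (fun ω hω => by
      have b1 := abs_le.1 (oB₁ ω (sB₂ ω (sB₃ ω hω))).1
      have b2 := abs_le.1 (oB₁ ω (sB₂ ω (sB₃ ω hω))).2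
      rw [abs_le]
      constructor
      · linarith only [b1.1, b1.2, b2.1, b2.2]
      · linarith only [b1.1, b1.2, b2.1, b2.2])
  have M4 : 1 / 4 * Pe F.p A ≤ Pe F.p B := by linarith
  have s1 : Sub B B₁ := fun ω hω => sB₂ ω (sB₃ ω (sB ω hω))
  have sA : Sub B A := fun ω hω => sB₁ ω (s1 ω hω)
  have hB0 : 0 < Pe F.p B := lt_of_lt_of_le (by positivity) M4
  have hq := isLaw_cond F.isLaw hB0
  rw [← hΓ] at oB₂ oB₃ oB₄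
  -- the affine labels
  have pΓ : (1 : ℝ) ≤ 2 ^ Γ := one_le_pow₀ (by norm_num)
  have pX : (2 : ℝ) ^ (Γ + 3) = 8 * 2 ^ Γ := by rw [pow_add]; ring
  have cl1 : ClA F B {c 0} (c 1) ⌊w * J⌋₊ (Γ + 3) Nb (fun s _ => a₁ s) t₁ := by
    refine ⟨fun ω hω => ?_, fun _ _ => ca₁.sub sA, ct₁.sub sA⟩
    have b0 := oB₂ ω (sB₃ ω (sB ω hω))
    have b1 := (oB₁ ω (s1 ω hω)).1
    refine ⟨fun _ _ => ?_, ?_, ?_⟩
    · show |a₁ (ptr F J ω)| ≤ 2 ^ (Γ + 3)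
      rw [pX]
      linarith only [b0, pΓ]
    · rw [pX]
      have b2 := abs_le.1 (F.dir ω (c 1))
      have b3 : |a₁ (ptr F J ω) * F.d ω (c 0)| ≤ 2 ^ Γ * 2 := by
        rw [abs_mul]
        exact (mul_le_of_le_one_right (abs_nonneg _) (F.dir ω (c 0))).trans b0
      have b4 := abs_le.1 b3
      have b5 := abs_le.1 b1
      rw [abs_le]
      constructor
      · linarith only [b2.1, b2.2, b4.1, b4.2, b5.1, b5.2, uNb, pΓ]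
      · linarith only [b2.1, b2.2, b4.1, b4.2, b5.1, b5.2, uNb, pΓ]
    · rw [Finset.sum_singleton]
      exact b1
  have cl2 : ClA F B {c 0} (c 1) ⌊W' * J⌋₊ (Γ + 3) Nd (fun s _ => a₂ s) t₂ := by
    refine ⟨fun ω hω => ?_, fun _ _ => ca₂.sub sA, ct₂.sub sA⟩
    have b0 := oB₃ ω (sB ω hω)
    have b1 := (oB₁ ω (s1 ω hω)).2
    refine ⟨fun _ _ => ?_, ?_, ?_⟩
    · show |a₂ (ptr F J ω)| ≤ 2 ^ (Γ + 3)
      rw [pX]
      linarith only [b0, pΓ]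
    · rw [pX]
      have b2 := abs_le.1 (F.dir ω (c 1))
      have b3 : |a₂ (ptr F J ω) * F.d ω (c 0)| ≤ 2 ^ Γ * 2 := by
        rw [abs_mul]
        exact (mul_le_of_le_one_right (abs_nonneg _) (F.dir ω (c 0))).trans b0
      have b4 := abs_le.1 b3
      have b5 := abs_le.1 b1
      rw [abs_le]
      constructor
      · linarith only [b2.1, b2.2, b4.1, b4.2, b5.1, b5.2, uNd, pΓ]
      · linarith only [b2.1, b2.2, b4.1, b4.2, b5.1, b5.2, uNd, pΓ]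
    · rw [Finset.sum_singleton]
      exact b1
  -- few velocities
  have hz : Cl2 (ptr F J) (slam F ⌊W * J⌋₊) B (cR F B W) := Pool.VG83.cl_cR F B W
  obtain ⟨u, hu⟩ : ∃ u : F.Ω → ℕ → ℤ, u = fun ω l => if l < 1 then
    cfl 1 J (Nn l) (ojet F (c 1) 1 (G₁ (z₁' (slam F ⌊bl 0 * J⌋₊ ω))) ω) else 0 := ⟨_, rfl⟩
  have huP : (qVel m c 1 1 1 bl pl Nn).P 0 e₀ J F B u := by
    refine ⟨fun l hl => ?_, fun ω _ l hl => by rw [hu]; exact if_neg hl⟩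
    obtain rfl : l = 0 := by omega
    refine ⟨V₁, z₁, z₁', G₁, (hl1.sub sA).mono (Finset.Subset.refl _) le_rfl
      (fl (by linarith)), fun ω _ => ?_⟩
    show u ω 0 = _
    rw [hu]
    exact if_pos one_pos
  obtain ⟨V₃, z₃, hz₃, hfew⟩ := Hnear B sA M4 u huP
  have hdet : Det (Pool.Agent.H49.Ent.cond F.p B True) (cR F B W) z₃ := by
    intro ω ω' _ _ ee
    obtain ⟨χ, hχ⟩ := vg_mono hw₁W hW01 J F
    have hz' : Cl2 (ptr F J) (vg W J F) B z₃ :=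
      hz₃.mono ⟨fun x => x, fun _ _ => rfl⟩ ⟨χ, fun ω _ => hχ ω⟩
    have h3 := congrFun ee ⟨fun ν => z₃ ν = z₃ ω, hz'.comp fun v => v = z₃ ω⟩
    have h4 : (z₃ ω = z₃ ω) = (z₃ ω' = z₃ ω) := h3
    exact (h4.mp rfl).symm
  have hX : CH (Pool.Agent.H49.Ent.cond F.p B True) (fun ω => F.X ⌊Pn * J⌋₊ ω (c 0))
      (fun ω => (cR F B W ω, F.W ω)) ≤ Real.log 7 := by
    refine (CH_mono_cond hq.nonneg fun ω ω' _ _ ee => ?_).trans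
      (Hhx B sA M4 ⌊Pn * J⌋₊ (Nat.floor_le (mul_nonneg hPn0 hJ0)))
    exact Prod.ext (Pool.T4J.cR_mn hxW hW01 (Prod.ext_iff.1 ee).1) (Prod.ext_iff.1 ee).2
  have hcode := code_few (c := c) hq hlP hdet hfew hX
  have hfin := own_few (Mn := Mn) (N := Nn 0) hq
    (o := fun ω => F.d ω (c 1) - t₁ (ptr F J ω) - a₁ (ptr F J ω) * F.d ω (c 0))
    (f1.trans (mul_le_mul_of_nonneg_right hMN hJ0))
    (fun ω hω => by
      rw [hu]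
      show (if 0 < 1 then cfl 1 J (Nn 0) _ else 0) = _
      rw [if_pos one_pos, oj1 ω (sA ω (of_cond_pos hω))])
    (fun ω hω => (oB₁ ω (s1 ω (of_cond_pos hω))).1.trans uNb) hcode
  have hgain := lab_fam (F := F) (A := B) (B := B) (fun _ h => h) (y := c 0) (I := {c 0})
    (Finset.mem_singleton_self _) (v := c 1) (W₀ := ⌊w * J⌋₊) (W := ⌊W * J⌋₊)
    (W' := ⌊W' * J⌋₊) (X := Γ + 3) (Nb := Nb) (Nd := Nd) (Ns := Mn + (Γ + 3) + m + 3) (Mn := Mn)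
    (Pn := ⌊P * J⌋₊) (En := ⌊e * J⌋₊) (Γ := Γ) (b := b * J) (fl hww) (fl hWW) hW'J
    (α := fun _ _ => 0) (β := fun _ _ => 0) cl1 cl2 (fun k hk => by
      rw [Finset.mem_erase, Finset.mem_singleton] at hk
      exact absurd hk.2 hk.1) n1 le_rfl n3 n4 n5 (fun ω hω => by
      have b0 := oB₄ ω hω
      unfold Pool.GN97.qL
      rw [Finset.erase_singleton, Finset.sum_empty, add_zero]
      refine b0.trans (mul_le_mul_of_nonneg_left (add_le_add le_rfl ?_) (by positivity))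
      exact one_div_le_one_div_of_le (by positivity) (pow_le_pow_right₀ (by norm_num)
        (by omega))) hz (by
      have e3 : (fun ω => ⌊(2 : ℝ) ^ Mn * ow F {c 0} (c 1) (fun s _ => a₁ s) t₁ ω⌋) =
          fun ω => ⌊(2 : ℝ) ^ Mn * (F.d ω (c 1) - t₁ (ptr F J ω) -
            a₁ (ptr F J ω) * F.d ω (c 0))⌋ := by
        funext ω
        unfold ow
        rw [Finset.sum_singleton]
      rw [e3]
      refine hfin.trans ?_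
      have e4 : (df + h) * (J : ℝ) + h * J = b * J := by
        rw [hh]
        ring
      linarith only [e4, c2])
  rw [← hMn]
  exact ⟨B, _, _, _, _, _, _, sA, M4, hgain⟩

end Pool.FDV4
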