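import Pool.Agent.H4.FDV.Near
import Pool.Agent.H4.FDV.Gain
import Pool.Agent.H4.FDV.Far

/-!
# The far-dead void for slopes smaller than two

`fd_void`.
-/

set_option autoImplicit false

namespace Pool.FDV4

open Finset Real MvPolynomial
open Pool.Agent.H49.Ent Pool.Agent.H32.Dense
open Pool.STK hiding pr2
open Pool.KA Pool.KSAT Pool.K2S Pool.PB Pool.GEN
open Pool.S6C Pool.RCD Pool.LA91 Pool.V0F Pool.D164 Pool.MM97
open Pool.CDX (AffL)
open Pool.PRC54 (yQ)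
open Pool.FVL91 (qVel)
open Pool.T462 (FewN)
open Pool.T4A95 (ActI)

variable {m : ℕ}

/-- The activity at the exact points. -/
theorem act_pt {S : PCl m}
    (hpos : ∀ (τ : ℝ) (J : ℕ) (F : Fam m J) (A : F.Ω → Prop), S.St τ J F A → 0 < Pe F.p A)
    {i : Fin m} {a x : ℝ} (ha : 0 < a) (hx : 0 < x) (H : ActI S i a 0 x) :
    Bas S (fun J F A => a * x / 4 * J ≤
      CH (Pool.Agent.H49.Ent.cond F.p A True) (fun ω => F.D ⌊x * J⌋₊ ω i) (ptr F J)) := by
  refine Bas.mono 0 ((H (a * x / 2) (by positivity)).and (pos_bas hpos)) ?_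
  rintro J - F A ⟨h1, hA⟩
  have hJ0 : (0 : ℝ) ≤ J := Nat.cast_nonneg J
  have hl : 1 / 2 ≤ Real.log 2 := by
    have := Real.log_two_gt_d9
    linarith
  have h2 : CH (Pool.Agent.H49.Ent.cond F.p A True) (fun ω => F.D ⌊x * J⌋₊ ω i)
      (fun ω => (F.D ⌊(0 : ℝ) * J⌋₊ ω, (F.X J ω, F.W ω))) ≤
      CH (Pool.Agent.H49.Ent.cond F.p A True) (fun ω => F.D ⌊x * J⌋₊ ω i) (ptr F J) := by
    refine CH_mono_cond (isLaw_cond F.isLaw hA).nonneg fun ω ω' _ _ e => ?_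
    have e1 := (Prod.ext_iff.1 e).2
    exact Prod.ext (Prod.ext_iff.1 e1).1 (Prod.ext_iff.1 e1).2
  have h3 : a * x / 4 * J ≤ (a * (x - 0) - a * x / 2) * Real.log 2 * J := by
    refine mul_le_mul_of_nonneg_right ?_ hJ0
    have h4 := mul_le_mul_of_nonneg_left hl (show 0 ≤ a * x / 2 by positivity)
    linarith
  linarith

/-- Fullness of the place `c 1`. -/
theorem fulc_12 {S : PCl m} {c : ℕ → Fin m} {w : ℝ} {s : ℕ → ℝ} (h : FulC S c 0 (1 + 2) w s) :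
    FulC S c 1 2 w s := fun ρ hρ => Bas.mono 0 (h ρ hρ) fun J _ F A h1 V z z' hz i h2 h3 =>
  h1 V z z' hz i (Nat.zero_le _) (by omega)

/-- **The light box** at the window `w`. -/
theorem box_near {D : ℕ} {S : PCl m} {c : ℕ → Fin m} {sn sp : ℕ → ℝ → ℝ} {G : Set ℝ}
    {s σ hr b o t q Λ φ' e w u Λn en : ℝ} (Bx : BoxD S c D sn G s σ hr b o t q Λ φ')
    (hsn : ∀ v ∈ G, t ≤ v → v ≤ t + Λ * q → |sn 0 v - v| ≤ e * q)
    (hsp : sp 0 b ≤ sn 0 b - φ')
    (hfree : ∀ (P w₁ : ℚ) (x' : ℝ), t ≤ w₁ → x' ∈ G → w₁ ≤ x' → x' ≤ t + Λ * q →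
      sn 0 t - t + q ≤ P → (P : ℝ) ≤ sn 0 t - t + Λ * q →
      FrI S c 1 sp b (fun _ => (P : ℝ)) w₁ x' (e * q))
    (hrn : ∀ w₁ : ℚ, ∃ η : ℝ, RNum S (fun J F => ptr F J) (vg (w₁ : ℝ)) η)
    (hwG : w ∈ G) (htw : t ≤ w) (hwq : w ≤ t + q) (hu : 0 < u) (huq : u ≤ q) (hΛn : 0 ≤ Λn)
    (hΛ : Λn + 2 ≤ Λ) (he : 0 ≤ e) (he1 : 4 * e ≤ 1) (heu : e * q ≤ en * u) :
    BoxN S c 0 sn sp G s b o w u Λn φ' en (sn 0 t - t + q) := by
  have hq := Bx.u0
  have k1 : Λn * u ≤ Λn * q := mul_le_mul_of_nonneg_left huq hΛn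
  have k2 : (Λn + 2) * q ≤ Λ * q := mul_le_mul_of_nonneg_right hΛ hq.le
  have k3 : (Λn + 2) * q = Λn * q + 2 * q := by ring
  rw [k3] at k2
  have k4 : 4 * (e * q) ≤ q := by
    have := mul_le_mul_of_nonneg_right he1 hq.le
    linarith only [this]
  have k5 : 0 ≤ Λn * u := mul_nonneg hΛn hu.le
  have a1 := Bx.bw
  have a2 := Bx.wo
  have a3 := Bx.o1
  have a4 := Bx.b0
  have n0 := abs_le.1 (hsn t Bx.wG le_rfl (by linarith only [k1, k2, k5, hq]))
  have n1 := abs_le.1 (hsn w hwG htw (by linarith only [k1, k2, k5, hq, hwq]))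
  have hbt : b ≤ t := by linarith only [a1, k1, k2, k5, hq]
  exact {
    lad := Bx.lad.take (by norm_num)
    u0 := hu
    wG := hwG
    bw := by linarith only [a1, k1, k2, htw, hq]
    wo := by linarith only [a2, k1, k2, hwq, hq]
    o1 := by linarith only [a3, k1, k2, hq]
    b0 := by linarith only [a4, k1, k2, hq]
    room := by
      have := (Bx.room 0 (by norm_num)).2
      linarith only [this, k1, k2, hq]
    rooms := fun l h1 h2 => by
      have := (Bx.room l (by omega)).2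
      linarith only [this, k1, k2, hq]
    lin := fun l h1 h2 v hv h3 h4 => by
      have b1 := abs_le.1 (Bx.lin l h1 (by omega) v hv h3 h4)
      have b2 := abs_le.1 (Bx.lin l h1 (by omega) w hwG (by linarith only [hbt, htw])
        (by linarith only [a2, k1, k2, hwq, hq, k5]))
      rw [abs_le]
      constructor
      · linarith only [b1.1, b1.2, b2.1, b2.2]
      · linarith only [b1.1, b1.2, b2.1, b2.2]
    spb := by
      have := Bx.lad.φ0
      linarith only [hsp, this]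
    free := fun P w₁ x' h1 h2 h3 h4 h5 h6 => frI_mono (hfree P w₁ x' (htw.trans h1) h2 h3
      (by linarith only [h4, hwq, k1, k2, hq]) h5 (by
        linarith only [h6, n0.1, n1.2, k1, k2, k4, hq])) heu
    rn := hrn }

/-- **The far-dead void**, `s < 2`. -/
theorem fd_void : FdStmt := by
  intro s a hs hs2 ha
  have hs1 : 0 < s - 1 := by linarith
  have hs0 : 0 < s := by linarith
  obtain ⟨d, hd⟩ : ∃ d, d = 2 - s := ⟨_, rfl⟩
  have hd0 : 0 < d := by rw [hd]; linarith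
  have hd1 : d ≤ 1 := by rw [hd]; linarith
  obtain ⟨δ, hδ⟩ : ∃ δ, δ = a * d / 6400 := ⟨_, rfl⟩
  have hδ0 : 0 < δ := by rw [hδ]; positivity
  refine ⟨δ / 80, by positivity, fun T N₀ ς₁ hT hN₀ hς hNς => ?_⟩
  have hN0 : 0 < N₀ := by linarith
  obtain ⟨T', hT'⟩ : ∃ T', T' = N₀ * (T + 1) := ⟨_, rfl⟩
  have hT'1 : T + 1 ≤ T' := by
    rw [hT']
    exact le_mul_of_one_le_left (by linarith) hN₀
  obtain ⟨φ₁, hφ₁⟩ : ∃ φ₁, φ₁ = min (min (1 / 16) (δ / 40)) (d / 80) := ⟨_, rfl⟩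
  have hφ0 : 0 < φ₁ := by
    rw [hφ₁]
    exact lt_min (lt_min (by norm_num) (by positivity)) (by positivity)
  have hφ16 : φ₁ ≤ 1 / 16 := by rw [hφ₁]; exact (min_le_left _ _).trans (min_le_left _ _)
  have hφδ : φ₁ ≤ δ / 40 := by rw [hφ₁]; exact (min_le_left _ _).trans (min_le_right _ _)
  have hφd : φ₁ ≤ d / 80 := by rw [hφ₁]; exact min_le_right _ _
  obtain ⟨R, hR⟩ : ∃ R, R = T' + 6 + 6 / (s - 1) := ⟨_, rfl⟩
  obtain ⟨Λn, hΛn⟩ : ∃ Λn, Λn = R + 4 := ⟨_, rfl⟩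
  have h6s : 0 < 6 / (s - 1) := by positivity
  have hΛn0 : 0 < Λn := by rw [hΛn, hR]; linarith
  obtain ⟨Λ, hΛ⟩ : ∃ Λ, Λ = Λn + 12 / (s - 1) + 20 := ⟨_, rfl⟩
  have h12s : 0 < 12 / (s - 1) := by positivity
  obtain ⟨e, he⟩ : ∃ e, e = min (min (φ₁ / (800 * s * N₀)) (δ / (400 * N₀)))
    (ς₁ / (40 * (s + 1))) := ⟨_, rfl⟩
  have he0 : 0 < e := by
    rw [he]
    exact lt_min (lt_min (by positivity) (by positivity)) (by positivity)
  have he1 : 800 * s * (e * N₀) ≤ φ₁ := by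
    have h1 : e ≤ φ₁ / (800 * s * N₀) := by
      rw [he]
      exact (min_le_left _ _).trans (min_le_left _ _)
    rw [le_div_iff₀ (by positivity)] at h1
    linarith only [h1]
  have he2 : 400 * (e * N₀) ≤ δ := by
    have h1 : e ≤ δ / (400 * N₀) := by
      rw [he]
      exact (min_le_left _ _).trans (min_le_right _ _)
    rw [le_div_iff₀ (by positivity)] at h1
    linarith only [h1]
  have he3 : 40 * (s + 1) * e ≤ ς₁ := by
    have h1 : e ≤ ς₁ / (40 * (s + 1)) := by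
      rw [he]
      exact min_le_right _ _
    rw [le_div_iff₀ (by positivity)] at h1
    linarith only [h1]
  clear he
  have heN : e ≤ e * N₀ := le_mul_of_one_le_right he0.le hN₀
  have heN0 : 0 < e * N₀ := mul_pos he0 hN0
  have he4 : 800 * (e * N₀) ≤ φ₁ := by
    have : 800 * (e * N₀) ≤ s * (800 * (e * N₀)) := le_mul_of_one_le_left (by positivity) hs.le
    linarith only [this, he1]
  have hςN : 12 * ς₁ ≤ 1 := by
    have : ς₁ * 1 ≤ ς₁ * N₀ := mul_le_mul_of_nonneg_left hN₀ hς.le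
    linarith only [this, hNς]
  refine ⟨Λ, e, by linarith, he0, ?_⟩
  intro m D S c sn sp G σ hr b o t q x₀ ρ φ' C κ bl pl L N hS hpos Bx hφ' hsn hAt hAll hsp hfree
    hrn hact hG hx₀ hρ hx₁ hqN hN i j hij hj hs2' hNij
  obtain ⟨C₀, htm⟩ := Bx.lad.tm
  have hq := Bx.u0
  have hφ'0 := Bx.lad.φ0
  -- the unit
  have hij' : (i : ℝ) ≤ j := by exact_mod_cast hij
  have hjL : (j : ℝ) ≤ L := by exact_mod_cast hj
  have hi0 : (0 : ℝ) ≤ i := Nat.cast_nonneg i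
  have hji : 1 ≤ (j : ℝ) - i := by
    by_contra hcon
    rw [not_le] at hcon
    have h1 : (s - 1) * ((j : ℝ) - i) ≤ 1 * ((j : ℝ) - i) :=
      mul_le_mul_of_nonneg_right (by linarith) (by linarith)
    linarith
  have hρq : ρ ≤ q := by
    have h1 : 1 * ρ ≤ L * ρ := mul_le_mul_of_nonneg_right (by linarith) hρ.le
    linarith
  have hiρ : (i : ℝ) * ρ + 0 ≤ L * ρ := by
    rw [add_zero]
    exact mul_le_mul_of_nonneg_right (by linarith) hρ.le
  have hiρ0 : 0 ≤ (i : ℝ) * ρ := mul_nonneg hi0 hρ.le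
  obtain ⟨E, hE⟩ : ∃ E, E = e * q := ⟨_, rfl⟩
  have hE0 : 0 < E := by rw [hE]; exact mul_pos he0 hq
  have hEn : E ≤ e * N₀ * ρ := by
    rw [hE, mul_assoc]
    exact mul_le_mul_of_nonneg_left hqN he0.le
  have hEφ : 800 * E ≤ φ₁ * ρ := by
    have := mul_le_mul_of_nonneg_right he4 hρ.le
    linarith only [this, hEn]
  have hφρ : 16 * (φ₁ * ρ) ≤ ρ := by
    have := mul_le_mul_of_nonneg_right hφ16 hρ.le
    linarith only [this]
  have hφρ0 : 0 < φ₁ * ρ := mul_pos hφ0 hρ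
  have hφρd : 80 * (φ₁ * ρ) ≤ d * ρ := by
    have := mul_le_mul_of_nonneg_right hφd hρ.le
    linarith only [this]
  rw [← hE] at hφ'
  -- the window
  obtain ⟨w, hw⟩ : ∃ w, w = x₀ + i * ρ := ⟨_, rfl⟩
  have hwG : w ∈ G := by rw [hw]; exact hG i (hij.trans hj)
  have htw : t ≤ w := by rw [hw]; linarith only [hx₀, hiρ0]
  have hwq : w ≤ t + q := by rw [hw]; linarith only [hx₁, hiρ]
  have hΛΛn : Λn + 2 ≤ Λ := by rw [hΛ]; linarith only [h12s]
  have hΛ20 : 20 ≤ Λ := by rw [hΛ]; linarith only [h12s, hΛn0]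
  have hΛq : 20 * q ≤ Λ * q := mul_le_mul_of_nonneg_right hΛ20 hq.le
  have hAll' : ∀ v ∈ G, t ≤ v → v ≤ t + Λ * q → ∃ bl' pl' : ℕ → ℝ, AffD S c sn v E bl' pl' := by
    rw [hE]
    exact hAll
  have hsn' : ∀ v ∈ G, t ≤ v → v ≤ t + Λ * q → |sn 0 v - v| ≤ E := by
    rw [hE]
    exact hsn
  have hAt' : AffD S c sn t E bl pl := by
    rw [hE]
    exact hAt
  obtain ⟨bl₁, pl₁, hA₁⟩ := hAll' w hwG htw (by linarith only [hwq, hΛq, hq])
  -- the far bound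
  have e3' : 40 * (s + 1) * E ≤ ς₁ * q := by
    rw [hE, ← mul_assoc]
    exact mul_le_mul_of_nonneg_right he3 hq.le
  have hςq : 12 * (ς₁ * q) ≤ q := by
    have := mul_le_mul_of_nonneg_right hςN hq.le
    linarith only [this]
  have hςρ : 12 * (ς₁ * q) ≤ ρ := by
    have h1 := mul_le_mul_of_nonneg_left hqN (show 0 ≤ 12 * ς₁ by positivity)
    have h2 := mul_le_mul_of_nonneg_right hNς hρ.le
    linarith only [h1, h2]
  have hTq : (T + 1) * q ≤ T' * ρ := by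
    rw [hT']
    have := mul_le_mul_of_nonneg_left hqN (show 0 ≤ T + 1 by linarith)
    linarith only [this]
  obtain ⟨Nf, hNf, hfar⟩ := far_fd Bx hs (by rw [hΛ]; linarith only [h12s, hΛn0, hs2])
    hE0 hφ' e3' (by
      have : 0 ≤ ς₁ * q := by positivity
      linarith only [hςq, this]) hT hAt' (fun v hv h1 h2 => hAll' v hv h1
      (by linarith only [h2, hΛq, hq])) (fun v hv h1 h2 => hsn' v hv h1
      (by linarith only [h2, hΛq, hq])) hG hx₀ hρ hx₁ hN hij hj hs2'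
    (by linarith only [hςρ, hEφ, hφρ, hρ, hE0]) hTq (bl' := bl₁) (pl' := pl₁)
    (by rw [← hw]; exact hA₁)
  rw [← hw] at hNf hfar
  -- the light box
  have hen : e * q ≤ e * N₀ * ρ := by rw [← hE]; exact hEn
  have X : BoxN S c 0 sn sp G s b o w ρ Λn φ' (e * N₀) (sn 0 t - t + q) :=
    box_near Bx hsn hsp hfree hrn hwG htw hwq hρ hρq hΛn0.le hΛΛn he0.le
      (by linarith only [he4, hφ16, heN]) hen
  -- the numbers of the box
  have a1 := Bx.bw
  have a2 := Bx.wo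
  have a3 := Bx.o1
  have a4 := Bx.b0
  have r1 := Bx.room 1 (by norm_num)
  have n0 := abs_le.1 (hsn' t Bx.wG le_rfl (by linarith only [hΛq, hq]))
  have n1 := abs_le.1 (hsn' w hwG htw (by linarith only [hwq, hΛq, hq]))
  have hΛnq : Λn * ρ ≤ Λn * q := mul_le_mul_of_nonneg_left hρq hΛn0.le
  have hΛsplit : Λ * q = Λn * q + 12 / (s - 1) * q + 20 * q := by rw [hΛ]; ring
  have h12q : 0 < 12 / (s - 1) * q := mul_pos h12s hq
  have hΛnρ0 : 0 < Λn * ρ := mul_pos hΛn0 hρ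
  have hT4 : 5 * q ≤ (T + 1) * q := mul_le_mul_of_nonneg_right (by linarith) hq.le
  -- the near path
  obtain ⟨Pn, hPn⟩ : ∃ Pn, Pn = sn 0 w + (1 + 8 * φ₁) * ρ := ⟨_, rfl⟩
  obtain ⟨ln, hln⟩ : ∃ ln, ln = sn 0 w - w + (1 + 8 * φ₁) * ρ := ⟨_, rfl⟩
  obtain ⟨Nn, hNn⟩ : ∃ Nn : ℕ → ℝ, Nn = fun l => sn (1 + l) w - w + (1 + 2 * φ₁) * ρ := ⟨_, rfl⟩
  obtain ⟨w₁, hw₁, hw₁'⟩ := exists_rat_btwn (show w < w + φ₁ * ρ by linarith only [hφρ0])
  have hnear : FewN S (fun J F => ptr F J) (vg (w₁ : ℝ)) (yQ ((range 1).image c) Pn ln)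
      (qVel m c 1 1 1 bl₁ pl₁ Nn) (δ * ρ) := by
    refine near_cls (f := 0) (s := s) (δ := δ) (T := T') (φ₁ := φ₁) (R := R) (Λ := Λn)
      (e := e * N₀) (Nf := Nf) (df := N i j) hs hδ0 (by linarith) hφ0 hφ16 (by
        push_cast
        linarith only [hφδ]) hR hΛn.ge heN0 (by
        push_cast
        have : 0 ≤ s * (e * N₀) := by positivity
        linarith only [he1, this]) he2 hS hpos X ?_ (hφ'.trans hEn) (fun l hl => ?_)
      (fun v hv h1 h2 => ?_) ha (fun P Q h1 h2 h3 => ?_) (by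
        linarith only [hNij]) (fun l hl => ?_) hfar (fun l hl => ?_) w₁ Pn ln hw₁.le hw₁'.le
      hPn.ge hln.ge
    · linarith only [n0.2, n1.1, hTq, hT4, hρ, hEφ, hφρ, hρq]
    · obtain rfl : l = 0 := by omega
      have h1 := hA₁ 0 (by norm_num)
      exact ⟨h1.1, by linarith only [h1.2.1, hEn], h1.2.2⟩
    · obtain ⟨bl', pl', h3⟩ := hAll' v hv (htw.trans h1)
        (by linarith only [h2, hwq, hΛnq, hΛsplit, h12q, hq])
      refine ⟨bl', pl', fun l hl => ?_⟩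
      obtain rfl : l = 0 := by omega
      have h4 := h3 0 (by norm_num)
      exact ⟨h4.1, by linarith only [h4.2.1, hEn], h4.2.2⟩
    · refine hact P Q (by linarith only [h1, n1.1, hEφ, hφρ, hρ]) ?_ ?_
      · rw [← hE]
        linarith only [h2, hEφ, hE0]
      · linarith only [h3, n1.2, hEφ, hφρ, hρq, hρ, hΛq, hq]
    · obtain rfl : l = 0 := by omega
      have h1 := hNf 0 le_rfl
      linarith only [h1, hφρ, hρ]
    · rw [hNn]
  -- levels
  have hch : ∀ v ∈ G, ∃ (u₁ : ℝ) (rd : ℕ → ℝ), (∀ i < 1 + 2, 0 ≤ rd i) ∧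
      Chn S c 0 (1 + 2) v v u₁ (fun i => sn i v) rd := fun v hv => by
    obtain ⟨u₁, rd, h1, h2⟩ := Bx.lad.ch.ch v hv
    exact ⟨u₁, rd, h1, h2⟩
  have hlin := Bx.lin 1 le_rfl (by norm_num)
  have hbt : b ≤ t := by linarith only [a1, hΛq, hq]
  have hto : t ≤ o := by linarith only [a2, hΛq, hq]
  have hb0 : 0 < b := by linarith only [a4, hΛq, hq]
  have hlb := abs_le.1 (hlin b Bx.lad.bG le_rfl (hbt.trans hto))
  have hlw := abs_le.1 (hlin w hwG (hbt.trans htw) (by linarith only [a2, hΛq, hq, hwq]))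
  have hsb : b ≤ sn 1 b := by
    obtain ⟨u₁, rd, -, h1⟩ := hch b Bx.lad.bG
    exact ful_ge hS hpos (fulc_12 h1.ful) hb0 (by linarith only [a2, a3, hbt, hΛq, hq])
      (h1.s0 1 (Nat.zero_le _) (by norm_num)).1
  have hsw : w + 11 * q ≤ sn 1 w := by
    have h1 : (s - 1) * (12 / (s - 1) * q) = 12 * q := by
      field_simp
    have h2 : (s - 1) * (Λ * q) ≤ (s - 1) * (w - b) :=
      mul_le_mul_of_nonneg_left (by linarith only [a1, htw]) hs1.le
    rw [hΛsplit] at h2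
    have h3 : 0 ≤ (s - 1) * (Λn * q) := by positivity
    have h4 : 0 ≤ (s - 1) * (20 * q) := by positivity
    linarith only [h1, h2, h3, h4, hlb.1, hlb.2, hlw.1, hlw.2, hsb, hφ', hEφ, hφρ, hρq, hE0]
  -- the windows
  have h3s : 3 < 3 / (s - 1) := by
    rw [lt_div_iff₀ hs1]
    linarith
  obtain ⟨Y, hY⟩ : ∃ Y, Y = 3 / (s - 1) * ρ := ⟨_, rfl⟩
  have hY0 : 3 * ρ ≤ Y := by
    rw [hY]
    exact mul_le_mul_of_nonneg_right h3s.le hρ.le
  have hYs : (s - 1) * Y = 3 * ρ := by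
    rw [hY]
    field_simp
  have hYq : 4 * Y ≤ 12 / (s - 1) * q := by
    have h1 : 4 * Y = 12 / (s - 1) * ρ := by rw [hY]; ring
    rw [h1]
    exact mul_le_mul_of_nonneg_left hρq h12s.le
  have hwo5 : ∀ x : ℝ, w ≤ x → x ≤ w + 4 * Y + 5 * ρ → ∃ v ∈ G, |v - x| ≤ φ' := fun x h1 h2 =>
    Bx.lad.gap x (by linarith only [hbt, htw, h1])
      (by linarith only [h2, hwq, a2, hΛsplit, hYq, hρq, hq, mul_pos hΛn0 hq])
  obtain ⟨xG, hxG, hx⟩ := hwo5 (w + (1 + 9 * φ₁) * ρ) (by linarith only [hρ, hφρ0])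
    (by linarith only [hρ, hφρ, hY0])
  obtain ⟨W₂, hW₂G, hW₂⟩ := hwo5 (w + (1 + 10 * φ₁) * ρ) (by linarith only [hρ, hφρ0])
    (by linarith only [hρ, hφρ, hY0])
  obtain ⟨v', hvG, hv⟩ := hwo5 (w + Y) (by linarith only [hρ, hY0])
    (by linarith only [hρ, hY0])
  obtain ⟨x', hx'G, hx'⟩ := hwo5 (w + Y + 3 * ρ) (by linarith only [hρ, hY0])
    (by linarith only [hρ, hY0])
  rw [abs_le] at hx hW₂ hv hx'
  have hE8 : 800 * φ' ≤ φ₁ * ρ := by linarith only [hEφ, hφ']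
  obtain ⟨W, hxW, hWW₂⟩ := exists_rat_btwn (show xG < W₂ by
    linarith only [hx.2, hW₂.1, hE8, hφρ0])
  obtain ⟨W', hvW', hW'v⟩ := exists_rat_btwn (show v' < v' + ρ by linarith only [hρ])
  obtain ⟨P, hP1, hP2⟩ := exists_rat_btwn
    (show sn 0 t - t + 3 * q < sn 0 t - t + 4 * q by linarith only [hq])
  have hWlo : w + (1 + 9 * φ₁) * ρ - φ' ≤ W := by linarith only [hx.1, hxW]
  have hWhi : (W : ℝ) ≤ w + (1 + 10 * φ₁) * ρ + φ' := by linarith only [hW₂.2, hWW₂]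
  have hWW' : (W : ℝ) ≤ W' := by
    linarith only [hWhi, hvW', hv.1, hY0, hφρ, hE8, hρ]
  have hW'x : (W' : ℝ) ≤ x' := by
    linarith only [hW'v, hv.2, hx'.1, hE8, hφρ, hρ]
  have hx'Λ : x' ≤ t + Λ * q := by
    linarith only [hx'.2, hwq, hΛsplit, hYq, hρq, hq, mul_pos hΛn0 hq, hE8, hφρ, hY0, hρ]
  have hx'o : x' ≤ o := by linarith only [hx'Λ, a2]
  have ho1 : o < 1 := by linarith only [a3, hΛq, hq]
  have hx'1 : x' ≤ 1 := by linarith only [hx'o, ho1]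
  have hwW : w ≤ W := by linarith only [hWlo, hρ, hφρ0, hE8]
  have hv'x : v' ≤ x' := by linarith only [hvW', hW'x]
  have hwv' : w ≤ v' := by linarith only [hv.1, hY0, hE8, hφρ, hρ]
  have hW₂x : W₂ ≤ x' := by linarith only [hW₂.2, hx'.1, hE8, hφρ, hρ, hY0]
  have hwW₂ : w ≤ W₂ := by linarith only [hwW, hWW₂]
  have hxGx : xG ≤ x' := by linarith only [hxW, hWW', hW'x]
  have hwxG : w ≤ xG := by linarith only [hx.1, hρ, hφρ0, hE8]
  have hw0 : 0 ≤ w := by linarith only [hb0, hbt, htw]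
  -- the levels at the windows
  have hlv := abs_le.1 (hlin v' hvG (by linarith only [hbt, htw, hwv'])
    (by linarith only [hv'x, hx'o]))
  have hlW := abs_le.1 (hlin W₂ hW₂G (by linarith only [hbt, htw, hwW₂])
    (by linarith only [hW₂x, hx'o]))
  have hlo := abs_le.1 (hlin o Bx.lad.oG (hbt.trans hto) le_rfl)
  have nx := abs_le.1 (hsn' xG hxG (by linarith only [htw, hwxG])
    (by linarith only [hxGx, hx'Λ]))
  obtain ⟨bl₂, pl₂, hA₂⟩ := hAll' v' hvG (by linarith only [htw, hwv'])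
    (by linarith only [hv'x, hx'Λ])
  obtain ⟨ux, rdx, hrdx, hchx⟩ := hch xG hxG
  obtain ⟨uW, rdW, hrdW, hchW⟩ := hch W₂ hW₂G
  obtain ⟨ub, rdb, hrdb, hchb⟩ := hch b Bx.lad.bG
  obtain ⟨ηW, hηW⟩ := hrn W
  obtain ⟨ηW', hηW'⟩ := hrn W'
  -- the gain
  obtain ⟨M, hM⟩ : ∃ M, M = sn 1 w - w + (1 + φ₁) * ρ := ⟨_, rfl⟩
  obtain ⟨x, hxx⟩ : ∃ x, x = d * ρ / 8 := ⟨_, rfl⟩
  have hdρ : 0 < d * ρ := mul_pos hd0 hρ
  have hdρ1 : d * ρ ≤ ρ := mul_le_of_le_one_left hρ.le hd1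
  have hx0 : 0 < x := by rw [hxx]; positivity
  obtain ⟨c₁, hc₁⟩ : ∃ c₁, c₁ = a * x / 4 := ⟨_, rfl⟩
  obtain ⟨bg, hbg⟩ : ∃ bg, bg = c₁ / 100 := ⟨_, rfl⟩
  have hc₁0 : 0 < c₁ := by rw [hc₁]; positivity
  have hbg0 : 0 < bg := by rw [hbg]; positivity
  have hbgδ : bg = 2 * (δ * ρ) := by
    rw [hbg, hc₁, hxx, hδ]
    ring
  have hδρ : 0 < δ * ρ := mul_pos hδ0 hρ
  have hEδ : 400 * E ≤ δ * ρ := by
    have := mul_le_mul_of_nonneg_right he2 hρ.le
    linarith only [this, hEn]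
  have hactx := act_pt hpos ha hx0 (hact 0 x le_rfl (by
    rw [← hE, hxx]
    linarith only [hEφ, hφρd, hE0, hφρ0]) (by
    rw [hxx]
    linarith only [hdρ1, hρq, hΛq, hq, hρ]))
  have hactγ := act_pt hpos ha hφρ0 (hact 0 (φ₁ * ρ) le_rfl (by
    rw [← hE]
    linarith only [hEφ, hE0]) (by linarith only [hφρ, hρq, hΛq, hq, hρ]))
  rw [← hc₁] at hactx
  have hP0 : 2 * q ≤ (P : ℝ) := by linarith only [hP1, n0.1, hEφ, hφρ, hρq, hE0, hq]
  have hfr : FrD S (c 0) P W W' bg := by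
    have h1 := frD_of hpos (hrdb 0 (by norm_num))
      (Pool.NS71.att_le (hchb.att 0 le_rfl (by norm_num))
        (p' := sp 0 b) (by
          show sp 0 b ≤ sn 0 b
          linarith only [hsp, hφ'0])) (b := b) (sp := sp) (w₁ := W) (W' := W') (x' := x')
      (P := P) (κ := e * q) (h := bg - e * q) (by linarith only [hbt, htw, hwW]) hWW' hW'x hx'1
      (by linarith only [hP0, hq])
      (hfree P W x' (htw.trans hwW) hx'G (hWW'.trans hW'x) hx'Λ (by linarith only [hP1, hq])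
        (by linarith only [hP2, hΛq, hq])) (by
        rw [← hE, hbgδ]
        linarith only [hEδ, hδρ, hE0])
    have h2 : e * q + (bg - e * q) = bg := by ring
    rwa [h2] at h1
  have hgain := gain_bas htm (w := w) (w₁ := w₁) (xG := xG) (W := W) (v' := v') (W' := W')
    (bl := bl₁) (pl := pl₁) (Nn := Nn) (b₂ := bl₂ 0) (p₂ := pl₂ 0) (Pn := Pn) (ln := ln)
    (df := δ * ρ) (γ := φ₁ * ρ) (cγ := a * (φ₁ * ρ) / 4) (ε := φ₁ * ρ / 20) (M := M) (P := P)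
    (e := ρ) (b := bg) (p₀ := sn 0 xG) (r₀ := rdx 0) hw0
    (by linarith only [hwv', hv'x, hx'o, ho1]) (hA₁ 0 (by norm_num)).1
    (hA₁ 0 (by norm_num)).2.2 (hw0.trans hwv') (by linarith only [hv'x, hx'o, ho1])
    (hA₂ 0 (by norm_num)).1 (hA₂ 0 (by norm_num)).2.2 hwW
    (by linarith only [hw₁', hWlo, hρ, hφρ, hE8, hφρ0]) hxW.le hWW' hvW'.le
    (by linarith only [hW'x, hx'1]) hnear (hchx.att 0 le_rfl (by norm_num))
    (by linarith only [hPn, nx.1, hx.1, n1.2, hEφ, hE8, hφρ0])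
    (by linarith only [hPn, n1.1, hw0, hEφ, hφρ, hρ, hφρ0]) (by positivity) hφρ0.le hactγ
    (by positivity) (by linarith only [hM, hsw, hq, hρ, hφρ0]) (by
      rw [hNn]
      show M ≤ sn (1 + 0) w - w + (1 + 2 * φ₁) * ρ
      have e1 : sn (1 + 0) w = sn 1 w := rfl
      rw [e1]
      linarith only [hM, hφρ0])
    (by linarith only [hln, n1.2, hP0, hEφ, hφρ, hρq, hρ]) ?_ ?_ ?_ ?_ ?_ ?_
  · -- the contradiction
    refine gain_ful hS htm (fulc_12 hchW.ful) (W := W) (W' := W') (P := P) (M := M) (R := P)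
      (x := x) (b := bg) (c₁ := c₁) (e := ρ) (κ₀ := 1 / 4)
      (by linarith only [hwW, hb0, hbt, htw]) hWW₂.le (by linarith only [hW₂x, hx'1])
      (hchW.s0 1 (Nat.zero_le _) (by norm_num)).1 hWW' (by linarith only [hW'x, hx'1]) hηW hηW'
      hx0.le le_rfl (by linarith only [hP0, hq]) hbg0 (by rw [hbg]; linarith) hfr hactx ?_ ?_
      hρ.le ?_ (by norm_num) hgain
    · rw [hxx]
      linarith only [hM, hsw, hq, hρ, hφρ0, hdρ1, hρq]
    · show sn 1 W₂ < W + M - 2 * x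
      have h1 : s * (W₂ - w) ≤ s * ((1 + 10 * φ₁) * ρ + φ') :=
        mul_le_mul_of_nonneg_left (by linarith only [hW₂.2]) hs0.le
      have h2 : s * ((1 + 10 * φ₁) * ρ + φ') = 2 * ((1 + 10 * φ₁) * ρ + φ') -
        d * ρ - d * (10 * (φ₁ * ρ)) - d * φ' := by
        rw [hd]
        ring
      have h3 : 0 ≤ d * (10 * (φ₁ * ρ)) := by positivity
      have h4 : 0 ≤ d * φ' := by positivity
      rw [hxx, hM]
      linarith only [h1, h2, h3, h4, hlW.2, hlw.1, hWlo, hE8, hφρ0, hφρd, hdρ]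
    · have h1 : s * (w - t) ≤ s * (o - t - 18 * q) :=
        mul_le_mul_of_nonneg_left (by linarith only [hwq, a2, hΛq, hq]) hs0.le
      have h2 : 18 * q ≤ s * (18 * q) := le_mul_of_one_le_left (by positivity) hs.le
      linarith only [hM, hWhi, h1, h2, hlo.1, hlw.2, r1.2, hΛq, hφρ, hE8, hρ, hρq, hq]
  · have h1 := (hA₁ 0 (by norm_num)).2.1
    have e1 : sn (1 + 0) w = sn 1 w := rfl
    rw [e1] at h1
    linarith only [h1, hsw, hEφ, hφρ, hρq, hq, hE0, hρ]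
  · have h1 := (hA₂ 0 (by norm_num)).2.1
    have e1 : sn (1 + 0) v' = sn 1 v' := rfl
    rw [e1] at h1
    have h2 : (s - 1) * (Y - φ') ≤ (s - 1) * (v' - w) :=
      mul_le_mul_of_nonneg_left (by linarith only [hv.1]) hs1.le
    have h3 : (s - 1) * φ' ≤ 1 * φ' := mul_le_mul_of_nonneg_right (by linarith) hφ'0.le
    linarith only [h1, h2, h3, hYs, hlv.1, hlw.2, hM, hEφ, hE8, hφρ, hρ]
  · have h1 := (hA₁ 0 (by norm_num)).2.1
    have e1 : sn (1 + 0) w = sn 1 w := rfl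
    rw [e1] at h1
    linarith only [h1, hM, hP0, hEφ, hφρ, hρq, hρ, hq]
  · linarith only [hP0, hφρ, hρq, hρ]
  · linarith only [hφρ, hρ]
  · rw [hbgδ]
    linarith only [hδρ]

end Pool.FDV4
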