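import Pool.Agent.H97.GAIN.RVoid
import Pool.Agent.H91.LA.Nbxc

/-!
# Nearly closed gradients above the full level

`nlb_ful`: if the coordinate `c 1` is full behind `s 1` given `c 0` at the window `W₂`, there are no
gradients over `c 0` at the exact points which are nearly functions of the line and of the window, of
precision more than `s 1`, on large events. `gain_ful`: a gain at a rate is impossible.
-/

set_option autoImplicit false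

namespace Pool.FDV4

open Finset Real MvPolynomial
open Pool.Agent.H49.Ent Pool.Agent.H32.Dense Pool.STK Pool.KA Pool.KSAT Pool.K2S Pool.PB Pool.GEN
open Pool.S6C Pool.LA91 Pool.RCD Pool.OWN72 Pool.MM97 Pool.GN97
open Pool.JVE (DpI lab_grd cI cI_pos)
open Pool.MIC6 (res_of)
open Pool.STAT (cond_supp)
open Pool.GRD (LbP)

variable {m : ℕ}

/-- Equal digits. -/
theorem fl_eqF {N : ℕ} {x y : ℝ} (h : ⌊(2 : ℝ) ^ N * x⌋ = ⌊(2 : ℝ) ^ N * y⌋) :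
    |x - y| ≤ 1 / 2 ^ N := by
  have h1 := (Int.abs_sub_lt_one_of_floor_eq_floor h).le
  rw [← mul_sub, abs_mul, abs_of_pos (by positivity : (0 : ℝ) < 2 ^ N)] at h1
  rw [le_div_iff₀ (by positivity : (0 : ℝ) < 2 ^ N), mul_comm]
  exact h1

/-- **No label above the full level**, one family. -/
theorem ful_lb {J : ℕ} {F : Fam m J} {B : F.Ω → Prop} (hB : 0 < Pe F.p B) {y k : Fin m}
    {I : Finset (Fin m)} (hI : I = {y}) {K e w ρ P : ℕ} {V : Type} {z : PtT F → V}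
    {z' : LnT F → V} {G : V → MvPolynomial (Option (Fin m)) ℝ}
    (h : LbOK F I k K e J w ρ P B z z' G) (hρ : ρ ≤ J) (hP : P + e ≤ J) {T : Type}
    {Y : F.Ω → T} (hY : ∀ ω ω', Y ω = Y ω' → F.X J ω y = F.X J ω' y) :
    CH (Pool.Agent.H49.Ent.cond F.p B True) (fun ω => F.X J ω k)
      (fun ω => (Y ω, z' (slam F w ω), F.W ω)) ≤
      ((J : ℝ) - P) * Real.log 2 + Real.log 9 := by
  have hq := isLaw_cond F.isLaw hB
  have hPJ : P ≤ J := by omega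
  have pJ : (0 : ℝ) < 2 ^ J := by positivity
  have pP : (0 : ℝ) < 2 ^ P := by positivity
  have h1 := near_few hq (fun ω => F.x ω k) (fun ω => (Y ω, z' (slam F w ω), F.W ω)) (a := J)
    (M := 3 * 2 ^ (J - P)) fun ω ω' hω hω' hh => by
    have b1 : B ω := cond_supp hω
    have b2 : B ω' := cond_supp hω'
    have e1 : Y ω = Y ω' := (Prod.ext_iff.1 hh).1
    have e2 : z' (slam F w ω) = z' (slam F w ω') := (Prod.ext_iff.1 (Prod.ext_iff.1 hh).2).1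
    have e3 : F.W ω = F.W ω' := (Prod.ext_iff.1 (Prod.ext_iff.1 hh).2).2
    have e4 : F.T ω = F.T ω' := (Prod.ext_iff.1 e3).1
    have e5 : F.t ω = F.t ω' := by
      unfold Fam.t
      rw [e4]
    have e6 : |F.x ω y - F.x ω' y| ≤ 1 / 2 ^ J :=
      fl_eqF (show ⌊(2 : ℝ) ^ J * F.x ω y⌋ = ⌊(2 : ℝ) ^ J * F.x ω' y⌋ from hY _ _ e1)
    obtain ⟨b, hb⟩ : ∃ b : Option (Fin m) → ℝ, b = Function.update (bt F ω) (some y) (F.x ω' y) :=
      ⟨_, rfl⟩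
    have hby : b (some y) = F.x ω' y := by rw [hb, Function.update_self]
    have hbn : ∀ o, o ≠ some y → b o = bt F ω o := fun o ho => by
      rw [hb, Function.update_of_ne ho]
    have d1 : eval (bt F ω') (G (z' (slam F w ω'))) = eval b (G (z' (slam F w ω))) := by
      rw [e2]
      refine h.dep _ _ _ ?_ fun i hi => ?_
      · rw [hbn none (by simp)]
        exact e5.symm
      · rw [hI, Finset.mem_singleton] at hi
        rw [hi, hby]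
        rfl
    have hbd : ∀ o, |b o - bt F ω o| ≤ 1 / 2 ^ J := by
      intro o
      by_cases ho : o = some y
      · rw [ho, hby, abs_sub_comm]
        exact e6
      · rw [hbn o ho, sub_self, abs_zero]
        positivity
    have hsum : ∑ o, |b o - bt F ω o| ≤ 1 / 2 ^ J := by
      rw [Finset.sum_eq_single (some y) (fun o _ ho => by rw [hbn o ho, sub_self, abs_zero])
        (fun h => absurd (Finset.mem_univ _) h)]
      exact hbd _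
    have d2 := mvσ (G (z' (slam F w ω))) (bt F ω) b (2 ^ e) fun y' hy' i =>
      h.lip ω b1 y' (fun o => ((hy' o).trans (hbd o)).trans (inv_mono hρ)) i
    have d3 := h.pos ω b1
    have d4 := h.pos ω' b2
    rw [d1] at d4
    have d5 : (2 : ℝ) ^ e * ∑ o, |b o - bt F ω o| ≤ 1 / 2 ^ P := by
      refine (mul_le_mul_of_nonneg_left hsum (by positivity)).trans ?_
      rw [← mul_div_assoc, mul_one, div_le_div_iff₀ pJ pP, one_mul, ← pow_add]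
      exact pow_le_pow_right₀ (by norm_num) (by omega)
    have e7 : (3 : ℝ) * 2 ^ (J - P) / 2 ^ J = 3 * (1 / 2 ^ P) := by
      have : (2 : ℝ) ^ J = 2 ^ (J - P) * 2 ^ P := by
        rw [← pow_add]
        congr 1
        omega
      rw [this]
      field_simp
    rw [e7]
    have e8 : F.x ω k - F.x ω' k = (F.x ω k - eval (bt F ω) (G (z' (slam F w ω)))) -
      (F.x ω' k - eval b (G (z' (slam F w ω)))) -
      (eval b (G (z' (slam F w ω))) - eval (bt F ω) (G (z' (slam F w ω)))) := by ring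
    rw [e8]
    have g1 := abs_le.1 d3
    have g2 := abs_le.1 d4
    have g3 := abs_le.1 (d2.trans d5)
    rw [abs_le]
    constructor
    · linarith only [g1.1, g1.2, g2.1, g2.2, g3.1, g3.2]
    · linarith only [g1.1, g1.2, g2.1, g2.2, g3.1, g3.2]
  refine (show CH (Pool.Agent.H49.Ent.cond F.p B True) (fun ω => F.X J ω k)
      (fun ω => (Y ω, z' (slam F w ω), F.W ω)) ≤ _ from h1).trans ?_
  have p1 : (1 : ℝ) ≤ 2 ^ (J - P) := one_le_pow₀ (by norm_num)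
  have h2 : (2 : ℝ) * (3 * 2 ^ (J - P) + 1) + 1 ≤ 2 ^ (J - P) * 9 := by linarith
  refine (Real.log_le_log (by positivity) h2).trans (le_of_eq ?_)
  rw [Real.log_mul (by positivity) (by norm_num), Real.log_pow, Nat.cast_sub hPJ]

/-- **No nearly closed gradients above the full level.** -/
theorem nlb_ful {S : PCl m}
    (hpos : ∀ (τ : ℝ) (J : ℕ) (F : Fam m J) (A : F.Ω → Prop), S.St τ J F A → 0 < Pe F.p A)
    {c : ℕ → Fin m} {s : ℕ → ℝ} {W₂ : ℝ} (hful : FulC S c 1 2 W₂ s) {W M e κ₀ : ℝ} (hW : 0 < W)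
    (hWW : W ≤ W₂) (hW2 : W₂ ≤ 1) (hs0 : 0 ≤ s 1) (hM0 : 0 ≤ M) (hM : s 1 < W + M) (he : 0 ≤ e)
    (h1 : W + M + e < 1) (hκ₀ : 0 < κ₀) :
    Bas S (fun J F A => ∀ (B : F.Ω → Prop) (av : PtT F → Fin m → ℝ) (cv : PtT F → ℝ)
      (th : LnT F → Fin m → ℝ), Sub B A → κ₀ * Pe F.p A ≤ Pe F.p B →
      DpI F B {c 0} (c 1) ⌊e * J⌋₊ ⌊M * J⌋₊ av cv →
      (∀ ω, B ω → ∀ j ∈ ({c 0} : Finset (Fin m)),
        |th (slam F ⌊W * J⌋₊ ω) j - av (ptr F J ω) j| ≤ 1 / 2 ^ ⌊M * J⌋₊) →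
      False) := by
  classical
  obtain ⟨ρ, hρ⟩ : ∃ ρ, ρ = (W + M - s 1) / 2 := ⟨_, rfl⟩
  have hρ0 : 0 < ρ := by rw [hρ]; linarith
  have hl2 : 0 < Real.log 2 := Real.log_pos one_lt_two
  have hc := cI_pos m
  obtain ⟨τ₁, hτ₁, J₁, hb⟩ := hful ρ hρ0
  obtain ⟨C, hC⟩ : ∃ C : ℝ, C = cI m / κ₀ := ⟨_, rfl⟩
  have hC0 : 0 < C := by rw [hC]; positivity
  obtain ⟨J₂, hJ₂⟩ := exists_nat_ge (Real.log C / (τ₁ / 2))
  obtain ⟨J₃, hJ₃⟩ := exists_nat_ge (((m : ℝ) + 7) / (1 - (W + M + e)))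
  obtain ⟨J₄, hJ₄⟩ := exists_nat_ge (((m : ℝ) + 7) / (W + M))
  obtain ⟨J₅, hJ₅⟩ := exists_nat_ge ((Real.log 9 + ((m : ℝ) + 7) * Real.log 2) /
    (ρ * Real.log 2 / 2))
  refine ⟨τ₁ / 2, by linarith, J₁ + J₂ + J₃ + J₄ + J₅ + 1, ?_⟩
  intro J hJ F A hA B av cv th hBA hPB hdp hth
  have jr : ((J₁ + J₂ + J₃ + J₄ + J₅ + 1 : ℕ) : ℝ) ≤ J := by exact_mod_cast hJ
  push_cast at jr
  have n1 : (0 : ℝ) ≤ J₁ := Nat.cast_nonneg _
  have n2 : (0 : ℝ) ≤ J₂ := Nat.cast_nonneg _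
  have n3 : (0 : ℝ) ≤ J₃ := Nat.cast_nonneg _
  have n4 : (0 : ℝ) ≤ J₄ := Nat.cast_nonneg _
  have n5 : (0 : ℝ) ≤ J₅ := Nat.cast_nonneg _
  have hJ0 : (0 : ℝ) < J := by linarith
  have k2 : Real.log C ≤ τ₁ / 2 * J := by
    have h1 : Real.log C / (τ₁ / 2) ≤ (J : ℝ) := by linarith
    rw [div_le_iff₀ (by linarith)] at h1
    linarith
  have k3 : (m : ℝ) + 7 ≤ (1 - (W + M + e)) * J := by
    have h1 : ((m : ℝ) + 7) / (1 - (W + M + e)) ≤ (J : ℝ) := by linarith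
    rw [div_le_iff₀ (by linarith)] at h1
    linarith
  have k4 : (m : ℝ) + 7 ≤ (W + M) * J := by
    have h1 : ((m : ℝ) + 7) / (W + M) ≤ (J : ℝ) := by linarith
    rw [div_le_iff₀ (by linarith)] at h1
    linarith
  have k5 : Real.log 9 + ((m : ℝ) + 7) * Real.log 2 ≤ ρ * Real.log 2 / 2 * J := by
    have h1 : (Real.log 9 + ((m : ℝ) + 7) * Real.log 2) / (ρ * Real.log 2 / 2) ≤ (J : ℝ) := by
      linarith
    rw [div_le_iff₀ (by positivity)] at h1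
    linarith
  have f1 : (⌊W * (J : ℝ)⌋₊ : ℝ) ≤ W * J := Nat.floor_le (by positivity)
  have f2 : (⌊M * (J : ℝ)⌋₊ : ℝ) ≤ M * J := Nat.floor_le (by positivity)
  have f3 : (⌊e * (J : ℝ)⌋₊ : ℝ) ≤ e * J := Nat.floor_le (by positivity)
  have f4 : W * (J : ℝ) - 1 < ⌊W * (J : ℝ)⌋₊ := Nat.sub_one_lt_floor _
  have f5 : M * (J : ℝ) - 1 < ⌊M * (J : ℝ)⌋₊ := Nat.sub_one_lt_floor _
  have hWJ : ⌊W * (J : ℝ)⌋₊ ≤ J := by
    refine Nat.floor_le_of_le ?_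
    calc W * J ≤ 1 * J := mul_le_mul_of_nonneg_right (by linarith) hJ0.le
      _ = J := one_mul _
  have hW2J : ⌊W₂ * (J : ℝ)⌋₊ ≤ J := by
    refine Nat.floor_le_of_le ?_
    calc W₂ * J ≤ 1 * J := mul_le_mul_of_nonneg_right hW2 hJ0.le
      _ = J := one_mul _
  have g4 : ⌊W * (J : ℝ)⌋₊ + ⌊M * (J : ℝ)⌋₊ + ⌊e * (J : ℝ)⌋₊ + m + 3 ≤ J := by
    rw [← Nat.cast_le (α := ℝ)]
    push_cast
    linarith
  have g5 : m + 3 ≤ ⌊W * (J : ℝ)⌋₊ + ⌊M * (J : ℝ)⌋₊ := by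
    rw [← Nat.cast_le (α := ℝ)]
    push_cast
    linarith
  obtain ⟨P, hP⟩ : ∃ P, P + m + 3 = ⌊W * (J : ℝ)⌋₊ + ⌊M * (J : ℝ)⌋₊ :=
    ⟨⌊W * (J : ℝ)⌋₊ + ⌊M * (J : ℝ)⌋₊ - m - 3, by omega⟩
  have hPr : (P : ℝ) + m + 3 = ⌊W * (J : ℝ)⌋₊ + ⌊M * (J : ℝ)⌋₊ := by exact_mod_cast hP
  obtain ⟨B', b1, b2, b3⟩ := lab_grd hWJ hdp hth g4 hP.le
  have hB'A : Sub B' A := fun ω hω => hBA ω (b1 ω hω)
  have hB'S : S.St τ₁ J F B' := by
    have h2 : Pe F.p A ≤ C * Pe F.p B' := by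
      rw [hC, div_mul_eq_mul_div, le_div_iff₀ hκ₀]
      linarith
    have hS' := res_of (by linarith : (0 : ℝ) ≤ τ₁ / 2) hA hB'A hC0 k2 h2
    have e1 : 2 * (τ₁ / 2) = τ₁ := by ring
    rwa [e1] at hS'
  have hB'0 := hpos _ J F B' hB'S
  obtain ⟨V, z, z', G, h4⟩ := b3 0
  have hwin := slam_coarse F (Nat.floor_le_floor (mul_le_mul_of_nonneg_right hWW hJ0.le)) hW2J
  have k6 := hb J (by omega) F B' hB'S V z
    (fun x => z' (x.1, x.2.1, x.2.2 / 2 ^ (⌊W₂ * (J : ℝ)⌋₊ - ⌊W * (J : ℝ)⌋₊)))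
    (fun ω hω => by
      rw [h4.cls ω hω, hwin ω]) 1 le_rfl (by norm_num)
  have k7 := ful_lb hB'0 (y := c 0) rfl h4 (Nat.zero_le _) (by omega)
    (Y := fun ω => fun l' : Fin 1 => F.X J ω (c l')) fun ω ω' e => congrFun e 0
  simp only [← hwin] at k6
  have k8 := k6.trans k7
  have r1 : (J : ℝ) - P ≤ J - (W + M) * J + (m + 5) := by linarith
  have r2 := mul_le_mul_of_nonneg_right r1 hl2.le
  have r3 : (1 - s 1 - ρ) * Real.log 2 * J =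
      (J - (W + M) * J + ρ * J) * Real.log 2 := by
    rw [hρ]
    ring
  have r4 : 0 < ρ * Real.log 2 / 2 * J := by positivity
  rw [r3] at k8
  have r5 : (J - (W + M) * J + ρ * J) * Real.log 2 =
    (J - (W + M) * J + (m + 5)) * Real.log 2 + ρ * Real.log 2 / 2 * J + ρ * Real.log 2 / 2 * J -
      (m + 5) * Real.log 2 := by ring
  linarith

/-- **The level is at least the window.** -/
theorem ful_ge {S : PCl m} (hS : S.Ne)
    (hpos : ∀ (τ : ℝ) (J : ℕ) (F : Fam m J) (A : F.Ω → Prop), S.St τ J F A → 0 < Pe F.p A)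
    {c : ℕ → Fin m} {s : ℕ → ℝ} {W : ℝ} (hful : FulC S c 1 2 W s) (hW : 0 < W) (hW1 : W < 1)
    (hs0 : 0 ≤ s 1) : W ≤ s 1 := by
  by_contra hcon
  rw [not_le] at hcon
  obtain ⟨τ, hτ, J₁, hl⟩ := nlb_ful hpos hful hW le_rfl hW1.le hs0 (M := 0) (e := 0) le_rfl
    (by linarith) le_rfl (by linarith) one_pos
  obtain ⟨J, hJ, F, A, hA⟩ := hS τ hτ J₁
  refine hl J hJ F A hA A (fun _ _ => 0) (fun _ => 0) (fun _ _ => 0) (fun _ h => h)
    (by rw [one_mul]) (fun ω _ => ⟨fun _ _ => ?_, ?_, ?_⟩) fun ω _ _ _ => ?_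
  · rw [abs_zero]
    positivity
  · rw [abs_zero]
    positivity
  · simp only [zero_mul, Finset.sum_const_zero, sub_zero, Nat.floor_zero, pow_zero, div_one]
    exact F.dir ω (c 1)
  · rw [sub_zero, abs_zero]
    positivity

/-- **A gain at a rate is impossible**, above the full level. -/
theorem gain_ful {S : PCl m} (hS : S.Ne) {C₀ : ℝ} (htm : TmC S C₀) {c : ℕ → Fin m} {s : ℕ → ℝ}
    {W₂ : ℝ} (hful : FulC S c 1 2 W₂ s) {W W' P M R x b c₁ e η η' κ₀ : ℝ}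
    (hW0 : 0 < W) (hW2 : W ≤ W₂) (hW21 : W₂ ≤ 1) (hs0 : 0 ≤ s 1) (hWW : W ≤ W') (hW1' : W' ≤ 1)
    (hη : RNum S (fun J F => ptr F J) (vg W) η) (hη' : RNum S (fun J F => ptr F J) (vg W') η')
    (hx : 0 ≤ x) (hPR : P ≤ R) (hR : 0 ≤ R) (hb : 0 < b) (hbc : 100 * b ≤ c₁)
    (hfr : FrD S (c 0) P W W' b) (hact : Bas S (fun J F A => c₁ * J ≤
      CH (Pool.Agent.H49.Ent.cond F.p A True) (fun ω => F.D ⌊x * J⌋₊ ω (c 0)) (ptr F J)))
    (hxM : 2 * x < M) (hM : s 1 < W + M - 2 * x) (he : 0 ≤ e) (h1 : W + M + e < 1) (hκ₀ : 0 < κ₀)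
    (hgain : Bas S (fun J F A => ∃ (B : F.Ω → Prop) (a : PtT F → Fin m → ℝ) (c' p q : PtT F → ℝ)
        (V : Type) (z : F.Ω → V), Sub B A ∧ κ₀ * Pe F.p A ≤ Pe F.p B ∧
        GainR F (c 0) {c 0} (c 1) ⌊W * J⌋₊ ⌊W' * J⌋₊ ⌊e * J⌋₊ ⌊M * J⌋₊ ⌊P * J⌋₊ ⌊R * J⌋₊ (b * J) B
          a c' p q z)) : False := by
  classical
  have hW1 : W ≤ 1 := hWW.trans hW1'
  obtain ⟨d, hd⟩ : ∃ d, d = min ((W + M - 2 * x - s 1) / 2) ((M - 2 * x) / 2) := ⟨_, rfl⟩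
  have hd0 : 0 < d := by
    rw [hd]
    exact lt_min (by linarith) (by linarith)
  have hd1 : 2 * d ≤ W + M - 2 * x - s 1 := by
    have : d ≤ (W + M - 2 * x - s 1) / 2 := by rw [hd]; exact min_le_left _ _
    linarith
  have hd2 : 2 * d ≤ M - 2 * x := by
    have : d ≤ (M - 2 * x) / 2 := by rw [hd]; exact min_le_right _ _
    linarith
  obtain ⟨M₂, hM₂⟩ : ∃ M₂, M₂ = M - 2 * x - d := ⟨_, rfl⟩
  have hM₂1 : s 1 < W + M₂ := by
    rw [hM₂]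
    linarith
  have hM₂0 : 0 < M₂ := by linarith
  obtain ⟨τl, hτl, Jl, hl⟩ := nlb_ful (pos_of htm) hful hW0 hW2 hW21 hs0 hM₂0.le hM₂1 he (by
    rw [hM₂]
    linarith) (show 0 < κ₀ / 2 by linarith)
  obtain ⟨τh, hτh, Jh, hgn⟩ := hgain
  obtain ⟨τg, hτg, Jg, hgs⟩ := line_cls (I := {c 0}) (v := c 1) htm hW1 hWW hW1' hη hη' hx
    hxM hPR hR hb hbc hfr hact
  obtain ⟨J₁, hJ₁⟩ := exists_nat_ge (Real.log (1 / κ₀) / (τg / 2))
  obtain ⟨J₂, hJ₂⟩ := exists_nat_ge (2 / d)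
  obtain ⟨J, hJ, F, A, hA⟩ := hS (min τl (min (τg / 2) τh))
    (lt_min hτl (lt_min (by linarith) hτh)) (Jl + Jg + Jh + J₁ + J₂)
  have a1 : S.St τl J F A := S.mono (min_le_left _ _) hA
  have a2 : S.St (τg / 2) J F A := S.mono ((min_le_right _ _).trans (min_le_left _ _)) hA
  have a3 : S.St τh J F A := S.mono ((min_le_right _ _).trans (min_le_right _ _)) hA
  have hA0 := pos_of htm _ J F A a1
  have jr : ((Jl + Jg + Jh + J₁ + J₂ : ℕ) : ℝ) ≤ J := by exact_mod_cast hJ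
  push_cast at jr
  have n1 : (0 : ℝ) ≤ J₁ := Nat.cast_nonneg _
  have n2 : (0 : ℝ) ≤ J₂ := Nat.cast_nonneg _
  have n3 : (0 : ℝ) ≤ Jl := Nat.cast_nonneg _
  have n4 : (0 : ℝ) ≤ Jg := Nat.cast_nonneg _
  have n5 : (0 : ℝ) ≤ Jh := Nat.cast_nonneg _
  have hJ0 : (0 : ℝ) ≤ J := Nat.cast_nonneg J
  have q1 : Real.log (1 / κ₀) ≤ τg / 2 * J := by
    have h1 : Real.log (1 / κ₀) / (τg / 2) ≤ (J : ℝ) := by linarith
    rw [div_le_iff₀ (by linarith)] at h1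
    linarith
  have q2 : 2 ≤ d * J := by
    have h1 : 2 / d ≤ (J : ℝ) := by linarith
    rw [div_le_iff₀ hd0] at h1
    linarith
  obtain ⟨B, a, c', p, q, V, z, b1, b2, hG⟩ := hgn J (by omega) F A a3
  have hBS : S.St τg J F B := by
    have hS' := res_of (by linarith : (0 : ℝ) ≤ τg / 2) a2 b1
      (by positivity : (0 : ℝ) < 1 / κ₀) q1 (by
        rw [one_div, ← div_eq_inv_mul, le_div_iff₀ hκ₀]
        linarith)
    have e1 : 2 * (τg / 2) = τg := by ring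
    rwa [e1] at hS'
  obtain ⟨sel, hsel⟩ := hgs J (by omega) F B hBS _ a c' p q V z hG
  have f1 : (⌊M₂ * (J : ℝ)⌋₊ : ℝ) ≤ M₂ * J := Nat.floor_le (mul_nonneg hM₂0.le hJ0)
  have f2 : (⌊x * (J : ℝ)⌋₊ : ℝ) ≤ x * J := Nat.floor_le (by positivity)
  have f3 : M * (J : ℝ) - 1 < ⌊M * (J : ℝ)⌋₊ := Nat.sub_one_lt_floor _
  have f4 : ⌊M₂ * (J : ℝ)⌋₊ + 2 * ⌊x * (J : ℝ)⌋₊ ≤ ⌊M * J⌋₊ := by
    have h1 : ((⌊M₂ * (J : ℝ)⌋₊ + 2 * ⌊x * (J : ℝ)⌋₊ : ℕ) : ℝ) < ⌊M * J⌋₊ + 1 := by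
      have e1 : M₂ * (J : ℝ) = M * J - 2 * (x * J) - d * J := by
        rw [hM₂]
        ring
      push_cast
      linarith
    have h2 : ⌊M₂ * (J : ℝ)⌋₊ + 2 * ⌊x * (J : ℝ)⌋₊ < ⌊M * J⌋₊ + 1 := by exact_mod_cast h1
    omega
  have hca : ∀ k, ∃ f' : LnT F → ℝ, k ∈ ({c 0} : Finset (Fin m)) → ∀ ω, B ω →
      a (ptr F J ω) k = f' (slam F ⌊W * J⌋₊ ω) := by
    intro k
    by_cases hk : k ∈ ({c 0} : Finset (Fin m))
    · obtain ⟨f', hf⟩ := hG.ca k hk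
      exact ⟨f', fun _ => hf⟩
    · exact ⟨fun _ => 0, fun h => absurd h hk⟩
  choose af haf using hca
  obtain ⟨M', hM'⟩ : ∃ M', M' = ⌊M * (J : ℝ)⌋₊ - 2 * ⌊x * (J : ℝ)⌋₊ := ⟨_, rfl⟩
  rw [← hM'] at hsel
  have hMM : M' ≤ ⌊M * (J : ℝ)⌋₊ := by omega
  have hM2' : ⌊M₂ * (J : ℝ)⌋₊ ≤ M' := by omega
  have hp2 : (1 : ℝ) / 2 ^ M' ≤ 1 / 2 ^ ⌊M₂ * (J : ℝ)⌋₊ :=
    one_div_le_one_div_of_le (by positivity) (pow_le_pow_right₀ (by norm_num) hM2')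
  obtain ⟨B', hB'⟩ : ∃ B' : F.Ω → Prop, B' = fun ω => B ω ∧
      |q (ptr F J ω) - q (ptr F J (sel (slam F ⌊W * J⌋₊ ω)))| ≤ 1 / 2 ^ M' := ⟨_, rfl⟩
  rw [← hB'] at hsel
  have hB'B : Sub B' B := fun ω hω => by
    rw [hB'] at hω
    exact hω.1
  have hyI : c 0 ∈ ({c 0} : Finset (Fin m)) := Finset.mem_singleton_self _
  have hdp : DpI F B' {c 0} (c 1) ⌊e * J⌋₊ ⌊M₂ * J⌋₊
      (fun s k => a s k + if k = c 0 then q s else 0) (fun s => c' s + p s) := by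
    intro ω hω
    have hωB := hB'B ω hω
    refine ⟨hG.bda ω hωB, hG.bdc ω hωB, ?_⟩
    have h1 := hG.rep ω hωB
    unfold ow at h1
    rw [Finset.sum_singleton] at h1
    show |F.d ω (c 1) - (c' (ptr F J ω) + p (ptr F J ω)) -
      ∑ k ∈ ({c 0} : Finset (Fin m)), (a (ptr F J ω) k +
        if k = c 0 then q (ptr F J ω) else 0) * F.d ω k| ≤ 1 / 2 ^ ⌊M₂ * J⌋₊
    rw [Finset.sum_singleton, if_pos rfl]
    have e2 : F.d ω (c 1) - (c' (ptr F J ω) + p (ptr F J ω)) -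
        (a (ptr F J ω) (c 0) + q (ptr F J ω)) * F.d ω (c 0) =
        F.d ω (c 1) - c' (ptr F J ω) - a (ptr F J ω) (c 0) * F.d ω (c 0) - p (ptr F J ω) -
          q (ptr F J ω) * F.d ω (c 0) := by ring
    rw [e2]
    refine (h1.trans (one_div_le_one_div_of_le (by positivity)
      (pow_le_pow_right₀ (by norm_num) hMM))).trans hp2
  refine hl J (by omega) F A a1 B' _ _
    (fun s k => af k s + if k = c 0 then q (ptr F J (sel s)) else 0)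
    (fun ω hω => b1 ω (hB'B ω hω)) (by linarith) hdp (fun ω hω k hk => ?_)
  show |(af k (slam F ⌊W * J⌋₊ ω) + if k = c 0 then
    q (ptr F J (sel (slam F ⌊W * J⌋₊ ω))) else 0) -
    (a (ptr F J ω) k + if k = c 0 then q (ptr F J ω) else 0)| ≤ 1 / 2 ^ ⌊M₂ * J⌋₊
  rw [← haf k hk ω (hB'B ω hω)]
  have h0 : k = c 0 := Finset.mem_singleton.1 hk
  rw [if_pos h0, if_pos h0]
  have e3 : a (ptr F J ω) k + q (ptr F J (sel (slam F ⌊W * J⌋₊ ω))) -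
      (a (ptr F J ω) k + q (ptr F J ω)) =
      -(q (ptr F J ω) - q (ptr F J (sel (slam F ⌊W * J⌋₊ ω)))) := by ring
  rw [e3, abs_neg]
  rw [hB'] at hω
  exact hω.2.trans hp2

end Pool.FDV4
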