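import Pool.Agent.H4.FDV.Ful
import Pool.Agent.H4.T4.Ddc
import Pool.Agent.H71.NS.Ns6

/-!
# Affine labels over one coordinate: coefficients

`spr_at`: spread velocities at one scale. `ojet_af1`: the own velocity over an affine label of one
coordinate. `coe_cl`: its coefficients are closed functions.
-/

set_option autoImplicit false

namespace Pool.FDV4

open Finset Real MvPolynomial
open Pool.Agent.H49.Ent Pool.Agent.H32.Dense Pool.STK Pool.KA Pool.KSAT Pool.K2S Pool.PB Pool.GEN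
open Pool.S6C Pool.LA91 Pool.RCD Pool.OWN72 Pool.MM97 Pool.GN97
open Pool.MIC6 (res_of)
open Pool.STAT (cond_supp)
open Pool.GRD (LbP)
open Pool.FVL91 (coe1 eval_one)
open Pool.V0F (cR)

variable {m : ℕ}

/-- **Spread velocities**, at one scale. -/
theorem spr_at {S : PCl m}
    (hpos : ∀ (τ : ℝ) (J : ℕ) (F : Fam m J) (A : F.Ω → Prop), S.St τ J F A → 0 < Pe F.p A)
    {y : Fin m} {γ η c : ℝ} (hc : 0 < c) (hη : 0 < η) (hact : Bas S (fun J F A => c * J ≤
      CH (Pool.Agent.H49.Ent.cond F.p A True) (fun ω => F.D ⌊γ * J⌋₊ ω y) (ptr F J))) :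
    Bas S (fun J F A => ∀ (f g : PtT F → ℝ) (E : ℝ), 0 < E →
      (∀ ω, A ω → |f (ptr F J ω) + g (ptr F J ω) * F.d ω y| ≤ E) →
      ∃ B : F.Ω → Prop, Sub B A ∧ (1 - η) * Pe F.p A ≤ Pe F.p B ∧
        ∀ ω, B ω → |g (ptr F J ω)| ≤ 2 ^ ⌊γ * J⌋₊ * E) := by
  classical
  obtain ⟨τ₁, hτ₁, J₁, hb⟩ := hact
  obtain ⟨J₂, hJ₂⟩ := exists_nat_ge (Real.log (1 / η) / (τ₁ / 2))
  obtain ⟨J₃, hJ₃⟩ := exists_nat_ge ((Real.log 7 + 1) / c)
  refine ⟨τ₁ / 2, by linarith, max J₁ (max J₂ J₃), ?_⟩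
  intro J hJ F A hA f g E hE hfg
  have j1 : J₁ ≤ J := (le_max_left _ _).trans hJ
  have j2 : (J₂ : ℝ) ≤ J := by exact_mod_cast ((le_max_left _ _).trans (le_max_right _ _)).trans hJ
  have j3 : (J₃ : ℝ) ≤ J := by exact_mod_cast ((le_max_right _ _).trans (le_max_right _ _)).trans hJ
  have hlog : Real.log (1 / η) ≤ τ₁ / 2 * J := by
    have h1 := hJ₂.trans j2
    rw [div_le_iff₀ (by linarith)] at h1
    linarith
  have hcJ : Real.log 7 + 1 ≤ c * J := by
    have h1 := hJ₃.trans j3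
    rw [div_le_iff₀ hc] at h1
    linarith
  have hA0 := hpos _ J F A hA
  obtain ⟨Bd, hBd⟩ : ∃ Bd : F.Ω → Prop, Bd = fun ω =>
    A ω ∧ 2 ^ ⌊γ * J⌋₊ * E < |g (ptr F J ω)| := ⟨_, rfl⟩
  have hsub : Sub Bd A := fun ω hω => by
    rw [hBd] at hω
    exact hω.1
  have hparts := Pe_parts (p := F.p) (B := A) (B' := Bd) hsub
  refine ⟨fun ω => A ω ∧ ¬ Bd ω, fun ω hω => hω.1, ?_, fun ω hω => ?_⟩
  · by_contra hcon
    rw [not_le] at hcon
    have hbig : η * Pe F.p A < Pe F.p Bd := by linarith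
    have hBd0 : 0 < Pe F.p Bd := (mul_pos hη hA0).trans hbig
    have hS := res_of (by linarith : (0 : ℝ) ≤ τ₁ / 2) hA hsub
      (by positivity : (0 : ℝ) < 1 / η) hlog (by
        rw [one_div, ← div_eq_inv_mul, le_div_iff₀ hη]
        linarith)
    have e1 : 2 * (τ₁ / 2) = τ₁ := by ring
    rw [e1] at hS
    have h1 := hb J j1 F Bd hS
    have hq := isLaw_cond F.isLaw hBd0
    have h2 : CH (Pool.Agent.H49.Ent.cond F.p Bd True) (fun ω => F.D ⌊γ * J⌋₊ ω y) (ptr F J) ≤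
        Real.log (2 * (2 + 1) + 1) := by
      refine near_few hq (fun ω => F.d ω y) (ptr F J) (M := 2) fun ω ω' hω hω' h => ?_
      have k1 : Bd ω := cond_supp hω
      have k2 : Bd ω' := cond_supp hω'
      have l1 := hfg ω (hsub _ k1)
      have l2 := hfg ω' (hsub _ k2)
      rw [hBd] at k1
      have l3 : 2 ^ ⌊γ * J⌋₊ * E < |g (ptr F J ω)| := k1.2
      rw [← h] at l2
      have pg : (0 : ℝ) < 2 ^ ⌊γ * J⌋₊ := by positivity
      have l4 : |g (ptr F J ω)| * |F.d ω y - F.d ω' y| ≤ 2 * E := by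
        rw [← abs_mul]
        have e2 : g (ptr F J ω) * (F.d ω y - F.d ω' y) =
            (f (ptr F J ω) + g (ptr F J ω) * F.d ω y) -
            (f (ptr F J ω) + g (ptr F J ω) * F.d ω' y) := by ring
        rw [e2]
        refine (abs_sub _ _).trans ?_
        linarith
      rw [le_div_iff₀ pg]
      have l5 : 2 ^ ⌊γ * J⌋₊ * E * |F.d ω y - F.d ω' y| ≤ 2 * E :=
        (mul_le_mul_of_nonneg_right l3.le (abs_nonneg _)).trans l4
      have l6 : E * (|F.d ω y - F.d ω' y| * 2 ^ ⌊γ * J⌋₊) ≤ E * 2 := by linarith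
      exact le_of_mul_le_mul_left l6 hE
    have e3 : (2 : ℝ) * (2 + 1) + 1 = 7 := by norm_num
    rw [e3] at h2
    linarith
  · by_contra hcon
    rw [not_le] at hcon
    refine hω.2 ?_
    rw [hBd]
    exact ⟨hω.1, hcon⟩

/-- The coefficient of the time. -/
noncomputable def coeT (H : MvPolynomial (Option (Fin m)) ℝ) : ℝ :=
  coeff (Finsupp.single none 1) H

/-- **The own velocity over an affine label of one coordinate.** -/
theorem ojet_af1 {J : ℕ} (F : Fam m J) {k y : Fin m} {I : Finset (Fin m)} (hI : I = {y})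
    {G : MvPolynomial (Option (Fin m)) ℝ} (hG : G.totalDegree ≤ 1)
    (hdep : ∀ b b' : Option (Fin m) → ℝ, b none = b' none →
      (∀ i ∈ I, b (some i) = b' (some i)) → eval b G = eval b' G) (ω : F.Ω) :
    ojet F k 1 G ω = F.d ω k - coeT G - coe1 y G * F.d ω y := by
  classical
  unfold ojet
  rw [Pool.T4J.jet1_X]
  have h1 := Pool.T4J.ev_aff hG (bt F ω) (fun o => bt F ω o + bd F ω o)
  have e1 : (fun o => bt F ω o + bd F ω o - bt F ω o) = bd F ω := by
    funext o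
    ring
  rw [e1] at h1
  obtain ⟨b, hb⟩ : ∃ b : Option (Fin m) → ℝ, b = fun o => if o = none ∨ o = some y then
    bt F ω o + bd F ω o else bt F ω o := ⟨_, rfl⟩
  have h2 : eval (fun o => bt F ω o + bd F ω o) G = eval b G := by
    refine hdep _ _ ?_ fun i hi => ?_
    · rw [hb]
      simp
    · rw [hI, Finset.mem_singleton] at hi
      rw [hb, hi]
      simp
  rw [h2, eval_one hG, eval_one hG, add_sub_add_left_eq_sub, ← Finset.sum_sub_distrib,
    Fintype.sum_option, Finset.sum_eq_single y] at h1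
  · have e2 : b none = bt F ω none + bd F ω none := by rw [hb]; simp
    have e3 : b (some y) = bt F ω (some y) + bd F ω (some y) := by rw [hb]; simp
    rw [e2, e3] at h1
    have e4 : bd F ω none = 1 := rfl
    have e5 : bd F ω (some y) = F.d ω y := rfl
    have e6 : bd F ω (some k) = F.d ω k := rfl
    rw [e4, e5] at h1
    rw [← h1, e6]
    unfold coeT coe1
    ring
  · intro i _ hi
    have e2 : b (some i) = bt F ω (some i) := by
      rw [hb]
      simp [hi]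
    rw [e2, sub_self]
  · intro h
    exact absurd (Finset.mem_univ _) h

/-- A closed function of the label. -/
theorem coe_cl {J : ℕ} {F : Fam m J} {A : F.Ω → Prop} {w : ℕ} {V : Type} {z : PtT F → V}
    {z' : LnT F → V} (h : ∀ ω, A ω → z (ptr F J ω) = z' (slam F w ω)) (φ : V → ℝ) :
    Cl1 F A w (fun s => φ (z s)) := ⟨fun s => φ (z' s), fun ω hω => by
    show φ (z (ptr F J ω)) = φ (z' (slam F w ω))
    rw [h ω hω]⟩

/-- Records are monotone in the error. -/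
theorem frI_mono {S : PCl m} {c : ℕ → Fin m} {r : ℕ} {sp : ℕ → ℝ → ℝ} {b w w' κ κ' : ℝ}
    {P : Fin r → ℝ} (h : Pool.V0F.FrI S c r sp b P w w' κ) (hκ : κ ≤ κ') :
    Pool.V0F.FrI S c r sp b P w w' κ' := by
  obtain ⟨k₂, hk₂, e₀, he₀, H⟩ := h
  refine ⟨k₂, hk₂, e₀, he₀, fun K => Bas.mono 0 (H K) ?_⟩
  intro J _ F A h1 V z V' z' a1 a2 u hu
  exact (h1 V z V' z' a1 a2 u hu).trans
    (add_le_add le_rfl (mul_le_mul_of_nonneg_right hκ (Nat.cast_nonneg J)))

/-- **The velocity of `c 0` is free** of the record of a rational window. -/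
theorem frD_of {S : PCl m}
    (hpos : ∀ (τ : ℝ) (J : ℕ) (F : Fam m J) (A : F.Ω → Prop), S.St τ J F A → 0 < Pe F.p A)
    {c : ℕ → Fin m} {sp : ℕ → ℝ → ℝ} {b w₁ W' x' P κ r h : ℝ} (hr : 0 ≤ r)
    (hatt : Att S ((range 0).image c) (c 0) b (sp 0 b) r) (hb : b ≤ w₁) (hw : w₁ ≤ W')
    (hWx : W' ≤ x')
    (hx : x' ≤ 1) (hP : 0 ≤ P) (hfr : Pool.V0F.FrI S c 1 sp b (fun _ => P) w₁ x' κ) (hh : 0 < h) :
    FrD S (c 0) P w₁ W' (κ + h) := by
  obtain ⟨k, hk, H⟩ := Pool.NS71.fr_raw hpos hr hatt hb (hw.trans hWx) hx hP hfr hh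
  refine ⟨k, hk, Bas.mono 0 (H.and (pos_bas hpos)) ?_⟩
  rintro J - F A ⟨h1, hA⟩ V z V' z' m1 m2
  have hq := isLaw_cond F.isLaw hA
  have h2 := h1 V z _ _ m1 (Pool.V0F.mx_cR hA x' hk.le)
  refine h2.trans (add_le_add ?_ le_rfl)
  obtain ⟨χ, hχ⟩ := vg_mono hWx hx J F
  have hz' : Cl2 (ptr F J) (vg x' J F) A z' :=
    m2.1.mono ⟨fun x => x, fun _ _ => rfl⟩ ⟨χ, fun ω _ => hχ ω⟩
  refine CH_mono_cond hq.nonneg fun ω ω' hω hω' e => ?_
  have e1 := Prod.ext_iff.1 e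
  refine Prod.ext ?_ e1.2
  have h3 := congrFun e1.1 ⟨fun ν => z' ν = z' ω, hz'.comp fun v => v = z' ω⟩
  have h4 : (z' ω = z' ω) = (z' ω' = z' ω) := h3
  exact (h4.mp rfl).symm

end Pool.FDV4
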