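import Pool.Agent.H71.NS.Ns6

/-!
# Near-dead from far-dead, some of the followers of a slope-one place

`BoxN`: the box of the followers `c 1, …, c (1 + f)` of one slope over the slope-one place `c 0`, part of
the box of a record. `near_cls`: the velocities behind their natural digits are few given the near path
of the slope-one place, if they are few given the far path.
-/

set_option autoImplicit false

namespace Pool.FDV4

open Finset Real MvPolynomial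
open Pool.Agent.H49.Ent Pool.Agent.H32.Dense Pool.STK Pool.KA Pool.KSAT Pool.K2S Pool.PB Pool.GEN
open Pool.S6C Pool.RCD Pool.LA91 Pool.V0F Pool.FVL91 Pool.NS71
open Pool.GRD (LbP)
open Pool.PRC54 (yQ)
open Pool.PR46 (P1)
open Pool.NS95 (tD bL vfL)
open Pool.BFL (Pb)
open Pool.CDX (AffL)
open Pool.T462 (FewN)
open Pool.T4A95 (ActI)
open Pool.V0R (LadR)

/-- **The box of followers of a slope-one place**: the class `S` near the window `w`, in the unit `u`.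
`φ`: the error of the ladder; `e`: the error of the free velocity of `c 0` (in units `u`), from the
digits `Pm` on. -/
structure BoxN {m : ℕ} (S : PCl m) (c : ℕ → Fin m) (f : ℕ) (sn sp : ℕ → ℝ → ℝ) (G : Set ℝ)
    (s b o w u Λ φ e Pm : ℝ) : Prop where
  lad : LadR S c 1 f sn G b o φ
  u0 : 0 < u
  wG : w ∈ G
  bw : b + Λ * u ≤ w
  wo : w + Λ * u ≤ o
  o1 : o + Λ * u ≤ 1
  b0 : Λ * u ≤ b
  room : sn 0 o + Λ * u ≤ 1
  rooms : ∀ l, 1 ≤ l → l ≤ 1 + f → sn l o + Λ * u ≤ 1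
  lin : ∀ l, 1 ≤ l → l ≤ 1 + f → ∀ v ∈ G, b ≤ v → v ≤ o → |sn l v - sn l w - s * (v - w)| ≤ 2 * φ
  spb : sp 0 b ≤ sn 0 b
  free : ∀ (P w₁ : ℚ) (x' : ℝ), w ≤ w₁ → x' ∈ G → w₁ ≤ x' → x' ≤ w + Λ * u → Pm ≤ P →
    (P : ℝ) ≤ sn 0 w - w + Λ * u → FrI S c 1 sp b (fun _ => (P : ℝ)) w₁ x' (e * u)
  rn : ∀ w₁ : ℚ, ∃ η : ℝ, RNum S (fun J F => ptr F J) (vg (w₁ : ℝ)) η

/-- **Near-dead from far-dead**, with the constants. -/
theorem near_cls {m f : ℕ} {s δ T φ₁ R Λ e : ℝ} (hs : 1 < s) (hδ : 0 < δ)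
    (hT : 1 ≤ T) (hφ₁ : 0 < φ₁) (hφ16 : φ₁ ≤ 1 / 16) (hφδ : 20 * ((f : ℝ) + 2) * φ₁ ≤ δ)
    (hR : R = T + 6 + 6 / (s - 1)) (hΛ : R + 4 ≤ Λ) (he : 0 < e)
    (he1 : 16 * s * ((f : ℝ) + 7) ^ 2 * e ≤ φ₁) (he2 : 400 * e ≤ δ)
    {S : PCl m} {c : ℕ → Fin m} {sn sp : ℕ → ℝ → ℝ} {G : Set ℝ}
    {b o w u φ' Pm df a : ℝ} {bl pl Nf Nn : ℕ → ℝ} (hS : S.Ne)
    (hpos : ∀ (τ : ℝ) (J : ℕ) (F : Fam m J) (A : F.Ω → Prop), S.St τ J F A →
      0 < Pe F.p A)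
    (X : BoxN S c f sn sp G s b o w u Λ φ' e Pm) (hPm : Pm ≤ sn 0 w - w + (T + 1) * u) (hφ' : φ' ≤ e * u)
    (hbl : ∀ l ≤ f, bl l ≤ w ∧ sn (1 + l) w - e * u ≤ pl l ∧
      AffL S ((range (1 + l)).image c) (c (1 + l)) (bl l) (pl l))
    (hlb : ∀ v ∈ G, w ≤ v → v ≤ w + Λ * u → ∃ bl' pl' : ℕ → ℝ, ∀ l ≤ f, bl' l ≤ v ∧
      sn (1 + l) v - e * u ≤ pl' l ∧
      AffL S ((range (1 + l)).image c) (c (1 + l)) (bl' l) (pl' l))
    (ha : 0 < a) (hact : ∀ P Q : ℝ, sn 0 w - w + u ≤ P → P + φ₁ * u ≤ Q →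
      Q ≤ sn 0 w - w + 2 * u → ActI S (c 0) a P Q)
    (hdf : df ≤ δ / 80 * u) (hNf : ∀ l ≤ f, sn (1 + l) w - w + (1 + 2 * φ₁) * u ≤ Nf l)
    (hfar : FewN S (fun J F => ptr F J) (vg w) (yQ ((range 1).image c) (sn 0 w + T * u)
      (sn 0 w - w + T * u)) (qVel m c 1 (f + 1) 1 bl pl Nf) df)
    (hNn : ∀ l ≤ f, Nn l ≤ sn (1 + l) w - w + (1 + 2 * φ₁) * u)
    (w₁ : ℚ) (Pn ln : ℝ) (hw1 : w ≤ w₁) (hw2 : (w₁ : ℝ) ≤ w + φ₁ * u)
    (hPn : sn 0 w + (1 + 8 * φ₁) * u ≤ Pn) (hln : sn 0 w - w + (1 + 8 * φ₁) * u ≤ ln) :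
    FewN S (fun J F => ptr F J) (vg (w₁ : ℝ)) (yQ ((range 1).image c) Pn ln)
      (qVel m c 1 (f + 1) 1 bl pl Nn) (δ * u) := by
  classical
  have hu := X.u0
  have hf0 : (0 : ℝ) ≤ f := Nat.cast_nonneg f
  have hs1 : 0 < s - 1 := by linarith
  have hs0 : 0 < s := by linarith
  have hφ0 : 0 < φ' := X.lad.φ0
  obtain ⟨C₀, htm⟩ := X.lad.tm
  have hl2 : 0 < Real.log 2 := Real.log_pos one_lt_two
  have hl21 : Real.log 2 ≤ 1 := by
    have := Real.log_two_lt_d9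
    linarith
  -- the units
  obtain ⟨θ, hθ⟩ : ∃ θ, θ = φ₁ * u / ((f : ℝ) + 7) ^ 2 := ⟨_, rfl⟩
  have hf7 : (0 : ℝ) < ((f : ℝ) + 7) ^ 2 := by positivity
  have hf49 : (49 : ℝ) ≤ ((f : ℝ) + 7) ^ 2 := by nlinarith only [hf0]
  have hφu : 0 < φ₁ * u := mul_pos hφ₁ hu
  have hθ0 : 0 < θ := by
    rw [hθ]
    exact div_pos hφu hf7
  have hθf : ((f : ℝ) + 7) ^ 2 * θ = φ₁ * u := by
    rw [hθ]
    field_simp
  have heu : 0 < e * u := mul_pos he hu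
  have heθ : 16 * s * (e * u) ≤ θ := by
    rw [hθ, le_div_iff₀ hf7]
    have := mul_le_mul_of_nonneg_right he1 hu.le
    refine le_trans (le_of_eq ?_) this
    ring
  have hseu : e * u ≤ s * (e * u) := le_mul_of_one_le_left heu.le hs.le
  have heθ1 : 16 * (e * u) ≤ θ := by linarith only [heθ, hseu]
  have hθφ : 49 * θ ≤ φ₁ * u := by
    rw [← hθf]
    exact mul_le_mul_of_nonneg_right hf49 hθ0.le
  have hφu16 : 16 * (φ₁ * u) ≤ u := by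
    have := mul_le_mul_of_nonneg_right hφ16 hu.le
    linarith only [this]
  have hφ'1 : 16 * φ' ≤ u := by linarith only [hφ', heθ1, hθφ, hφu16, hθ0, hu]
  have hδu : 0 < δ * u := mul_pos hδ hu
  have heδ : 400 * (e * u) ≤ δ * u := by
    have := mul_le_mul_of_nonneg_right he2 hu.le
    linarith only [this]
  have h6s : (s - 1) * (6 / (s - 1)) = 6 := by field_simp
  have hsd : 0 < 6 / (s - 1) := by positivity
  have hRs : 6 ≤ (s - 1) * (R - 1) := by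
    have e1 : (s - 1) * (R - 1) = (s - 1) * (T + 5) + (s - 1) * (6 / (s - 1)) := by
      rw [hR]
      ring
    rw [e1, h6s]
    have : 0 ≤ (s - 1) * (T + 5) := mul_nonneg hs1.le (by linarith only [hT])
    linarith only [this]
  have hRT : T + 6 ≤ R := by linarith only [hR, hsd]
  have hΛ0 : 0 < Λ := by linarith only [hΛ, hRT, hT]
  have hΛu : (R + 4) * u ≤ Λ * u := mul_le_mul_of_nonneg_right hΛ hu.le
  have hRu : (T + 6) * u ≤ R * u := mul_le_mul_of_nonneg_right hRT hu.le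
  have hTu : u ≤ T * u := le_mul_of_one_le_left hu.le hT
  have hbw := X.bw
  have hwo := X.wo
  have ho1 := X.o1
  have hb0 := X.b0
  have hΛu0 : 0 < Λ * u := mul_pos hΛ0 hu
  -- the deep window
  obtain ⟨x', hxG, hx⟩ := X.lad.gap (w + R * u) (by linarith only [hbw, hRu, hTu, hu, hΛu0])
    (by linarith only [hwo, hΛu, hu])
  have hx1 := abs_le.1 hx
  have hxa : w + (R - 1) * u ≤ x' := by linarith only [hx1.1, hφ'1, hu]
  have hxb : x' ≤ w + (R + 1) * u := by linarith only [hx1.2, hφ'1, hu]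
  have hxΛ : x' ≤ w + Λ * u := by linarith only [hxb, hΛu, hu]
  have hxo : x' ≤ o := by linarith only [hxΛ, hwo]
  have hx'1 : x' ≤ 1 := by linarith only [hxo, ho1, hΛu0]
  have hwx : w ≤ x' := by linarith only [hxa, hRu, hTu, hu]
  have hbw' : b ≤ w := by linarith only [hbw, hΛu0]
  have hwo' : w ≤ o := by linarith only [hwx, hxo]
  have hgap : ∀ x, w ≤ x → x ≤ x' → ∃ v ∈ G, |v - x| ≤ φ' := fun x h1 h2 =>
    X.lad.gap x (hbw'.trans h1) (h2.trans hxo)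
  have h2φ : 2 * φ' < θ / s := by
    rw [lt_div_iff₀ hs0]
    have : φ' * s ≤ e * u * s := mul_le_mul_of_nonneg_right hφ' hs0.le
    linarith only [this, heθ, hθ0]
  obtain ⟨N, v, v0, vN, hv, hvs⟩ := mesh X.wG hxG hwx h2φ hgap
  have hvo : ∀ j ≤ N, v j ≤ o := fun j hj => (hv j hj).2.2.trans hxo
  have hvb : ∀ j ≤ N, b ≤ v j := fun j hj => hbw'.trans (hv j hj).2.1
  have hv1 : ∀ j ≤ N, v j ≤ 1 := fun j hj => (hv j hj).2.2.trans hx'1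
  have hstep : ∀ j < N, s * (v (j + 1) - v j) ≤ θ := fun j hj => by
    have := (hvs j hj).2
    rw [le_div_iff₀ hs0] at this
    linarith only [this]
  have hch : ∀ j ≤ N, ∃ (u₁ : ℝ) (rd : ℕ → ℝ),
      Chn S c 0 (1 + f) (v j) (v j) u₁ (fun i => sn i (v j)) rd := fun j hj => by
    obtain ⟨u₁, rd, -, h1⟩ := X.lad.ch.ch (v j) (hv j hj).1
    exact ⟨u₁, rd, h1⟩
  have hfw := X.lad.fl 0 one_pos w X.wG hbw' hwo'
  have hfl : ∀ x ∈ G, w ≤ x → x ≤ o → |sn 0 x - sn 0 w - (x - w)| ≤ 2 * φ' := fun x h1 h2 h3 => by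
    have h4 := X.lad.fl 0 one_pos x h1 (hbw'.trans h2) h3
    have h5 := abs_le.1 h4
    have h6 := abs_le.1 hfw
    rw [abs_le]
    constructor
    · linarith only [h5.1, h5.2, h6.1, h6.2]
    · linarith only [h5.1, h5.2, h6.1, h6.2]
  have hl0 : ∀ j ≤ N, |sn 0 (v j) - sn 0 w - (v j - w)| ≤ θ := fun j hj =>
    (hfl (v j) (hv j hj).1 (hv j hj).2.1 (hvo j hj)).trans (by linarith only [hφ', heθ1, hθ0])
  have hla : ∀ j ≤ N, ∀ l ≤ f, |sn (1 + l) (v j) - sn (1 + l) w - s * (v j - w)| ≤ θ :=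
    fun j hj l hl => (X.lin (1 + l) (by omega) (by omega) (v j) (hv j hj).1 (hvb j hj)
      (hvo j hj)).trans (by linarith only [hφ', heθ1, hθ0])
  -- the constants
  obtain ⟨Mu, hMu⟩ : ∃ Mu : ℝ, Mu = ∑ l ∈ range (f + 1), (|Nn l| + (1 : ℕ) + 4) := ⟨_, rfl⟩
  have hMu0 : 0 ≤ Mu := by
    rw [hMu]
    exact Finset.sum_nonneg fun l _ => by positivity
  obtain ⟨η, hη⟩ : ∃ η : ℝ, η = min (1 / 2) (δ * u / (16 * (Mu + 1))) := ⟨_, rfl⟩
  have hη0 : 0 < η := by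
    rw [hη]
    exact lt_min (by norm_num) (by positivity)
  have hη2 : η ≤ 1 / 2 := by rw [hη]; exact min_le_left _ _
  have hηM : η * Mu ≤ δ * u / 16 := by
    have h1 : η ≤ δ * u / (16 * (Mu + 1)) := by rw [hη]; exact min_le_right _ _
    rw [le_div_iff₀ (by positivity)] at h1
    linarith only [h1, hη0]
  obtain ⟨a0, ha0⟩ : ∃ a0 : ℝ, a0 = sn 0 w - w := ⟨_, rfl⟩
  obtain ⟨pf, hpf1, hpf2⟩ := exists_rat_btwn (show a0 + (T + 1) * u < a0 + (T + 2) * u by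
    linarith only [hu])
  obtain ⟨Pr, hPr⟩ : ∃ Pr : ℝ, Pr = a0 + (1 + 5 * φ₁) * u := ⟨_, rfl⟩
  obtain ⟨Qr, hQr⟩ : ∃ Qr : ℝ, Qr = a0 + (1 + 6 * φ₁) * u := ⟨_, rfl⟩
  have hPQ : Qr - Pr = φ₁ * u := by rw [hPr, hQr]; ring
  have hact1 : ActI S (c 0) a Pr Qr := hact Pr Qr (by linarith only [hPr, ha0, hφu])
    (by linarith only [hPQ]) (by linarith only [hQr, ha0, hφu16, hφu])
  have hPr0 : 0 ≤ Pr := by
    have h1 := act_nonneg hS hpos ha (by linarith only [hφu])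
      (hact (a0 + u) (a0 + u + φ₁ * u) (by rw [ha0]) le_rfl
        (by linarith only [ha0, hφu16, hu]))
    linarith only [h1, hPr, hφu]
  have hQr0 : 0 ≤ Qr := by linarith only [hPr0, hPQ, hφu]
  have hpfQ : Qr ≤ pf := by linarith only [hQr, hpf1, hφu16, hTu, hu, hφu]
  have hpf0 : (0 : ℝ) ≤ pf := hQr0.trans hpfQ
  have hroom := X.room
  have hfo : sn 0 w ≤ sn 0 o := by
    have h6 := abs_le.1 hfw
    linarith only [h6.1, h6.2, hwo, hΛu, hRu, hTu, hφ'1, hu]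
  have hw0 : 0 ≤ w := by linarith only [hb0, hbw', hΛu0]
  have hw10 : (0 : ℝ) ≤ w₁ := hw0.trans hw1
  have hwpf : (w₁ : ℝ) + pf ≤ sn 0 w + (T + 3) * u := by
    linarith only [hw2, hpf2, ha0, hφu16, hu, hφu]
  have hs01 : sn 0 w + (T + 3) * u ≤ 1 := by
    linarith only [hroom, hfo, hΛu, hRu, hu]
  have hw1x : (w₁ : ℝ) ≤ x' := by linarith only [hw2, hxa, hRu, hTu, hφu16, hu]
  have hwpf1 : sn 0 w + (T + 1) * u ≤ (w₁ : ℝ) + pf := by linarith only [hw1, hpf1, ha0]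
  -- the inputs
  have hfree := X.free pf w₁ x' hw1 hxG hw1x hxΛ (by linarith only [ha0, hpf1, hPm])
    (by linarith only [ha0, hpf2, hΛu, hRu, hu])
  obtain ⟨ub, rdb, hrdb, hchb⟩ := X.lad.ch.ch b X.lad.bG
  have hattb := att_le (hchb.att 0 le_rfl (by omega)) (p' := sp 0 b) X.spb
  obtain ⟨ux, rdx, hrdx, hchx⟩ := X.lad.ch.ch x' hxG
  have hattx := hchx.att 0 le_rfl (by omega)
  have hN0x : sn 0 w + (T + 3) * u < sn 0 x' := by
    have h1 := abs_le.1 (hfl x' hxG hwx hxo)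
    linarith only [h1.1, hxa, hRu, hφ'1, hu]
  obtain ⟨ηr, hηr⟩ := X.rn w₁
  have hbw1 : b ≤ w₁ := hbw'.trans hw1
  have hw11 : (w₁ : ℝ) ≤ 1 := hw1x.trans hx'1
  have hδ4 : 0 < δ * u / 400 := by positivity
  have hhalf : (0 : ℝ) < 1 / 2 := by norm_num
  have hPQ1 : Pr < Qr := by linarith only [hPQ, hφu]
  have hδs : 0 < δ / (16 * (T + 2)) := by positivity
  obtain ⟨ef₀, hef₀, Hfar⟩ := far_ev hpos hfar hw1 hw11 hηr hhalf hδ4
  have Hfree := free_ev hpos (hrdb 0 (by omega)) hattb hbw1 hw1x hx'1 hpf0 hfree hηr hhalf hδ4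
  have Hsep := sep_ev hpos hact1 ha hPQ1 hδs hhalf x'
  have Hhx := hx_ev hpos hattx hN0x hhalf
  have Htime := Pool.VG83.bas_ev (Pool.NS95.time_cls X.lad.tm hδ4) hhalf
  have Hgd := gd_cls htm hpos hch hs.le hθ0 hη0 v0 (fun j hj => (hvs j hj).1) hstep hl0 hla
  intro h hh
  obtain ⟨e₀, he₀⟩ : ∃ e₀ : ℝ, e₀ = min (θ / 2) ef₀ := ⟨_, rfl⟩
  have he00 : 0 < e₀ := by rw [he₀]; exact lt_min (half_pos hθ0) hef₀
  have he01 : e₀ ≤ θ / 2 := by rw [he₀]; exact min_le_left _ _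
  have he02 : e₀ ≤ ef₀ := by rw [he₀]; exact min_le_right _ _
  refine ⟨e₀, he00, fun K => ?_⟩
  have Hlab := lab_ev (S := S) (c := c) (f := f) (N := N) (sn := sn) (ε := e * u) v0 hv1 hθ0
    (by linarith only [heθ1, heu]) (fun l hl => ⟨(hbl l hl).1, (hbl l hl).2.1⟩)
    (fun j hj => hlb (v j) (hv j hj).1 (hv j hj).2.1 ((hv j hj).2.2.trans hxΛ)) (Nn := Nn) he01 K
  obtain ⟨J₁, hJ₁⟩ := E_big (a := φ₁ * u) (C := 3) hφu
  obtain ⟨J₂, hJ₂⟩ := exists_nat_ge (3 / u)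
  obtain ⟨J₃, hJ₃⟩ := exists_nat_ge ((Real.log 2 + 8 * (2 * (f : ℝ) + 4)) / (δ * u / 8))
  obtain ⟨J₄, hJ₄⟩ := exists_nat_ge (((f : ℝ) + 1) * Real.log 5 / (δ * u / 100))
  obtain ⟨J₅, hJ₅⟩ := exists_nat_ge (Real.log 7 / (δ * u / 400))
  refine Bas.mono (J₁ + J₂ + J₃ + J₄ + J₅ + 1) ((((Hgd.and Hlab).and (Hfree.and (Hfar 0))).and
    ((Hsep.and Hhx).and Htime)).and (pos_bas hpos)) ?_
  rintro J hJ F A ⟨⟨⟨⟨Hgd, Hlab⟩, Hfree, Hfar⟩, ⟨Hsep, Hhx⟩, Htime⟩, hA⟩ uu huu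
  have hJ0 : (0 : ℝ) ≤ J := Nat.cast_nonneg J
  have cast : ∀ k : ℕ, k ≤ J₁ + J₂ + J₃ + J₄ + J₅ → (k : ℝ) ≤ J := fun k hk => by
    exact_mod_cast (show k ≤ J by omega)
  have c1 : (3 : ℝ) ≤ 2 ^ (φ₁ * u * J) := hJ₁ J (by omega)
  have c2 : 3 ≤ u * J := by
    have h2 := hJ₂.trans (cast J₂ (by omega))
    rw [div_le_iff₀ hu] at h2
    linarith only [h2]
  have c3 : Real.log 2 + 8 * (2 * (f : ℝ) + 4) ≤ δ * u / 8 * J := by
    have h2 := hJ₃.trans (cast J₃ (by omega))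
    rw [div_le_iff₀ (by positivity)] at h2
    linarith only [h2]
  have c4 : ((f : ℝ) + 1) * Real.log 5 ≤ δ * u / 100 * J := by
    have h2 := hJ₄.trans (cast J₄ (by omega))
    rw [div_le_iff₀ (by positivity)] at h2
    linarith only [h2]
  have c5 : Real.log 7 ≤ δ * u / 400 * J := by
    have h2 := hJ₅.trans (cast J₅ (by omega))
    rw [div_le_iff₀ (by positivity)] at h2
    linarith only [h2]
  have hδuJ : 0 ≤ δ * u * J := by positivity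
  -- the good part
  obtain ⟨t, t', P, ht, hP, hcode, hz, hQ⟩ := Hlab uu huu
  obtain ⟨Bad, hBad, hcut, hdif⟩ := Hgd t t' P ht hP
  have hBA : Sub (fun ω => A ω ∧ ¬ Bad ω) A := fun ω hω => hω.1
  have hBm : 1 / 2 * Pe F.p A ≤ Pe F.p (fun ω => A ω ∧ ¬ Bad ω) :=
    (mul_le_mul_of_nonneg_right (by linarith only [hη2]) hA.le).trans (pe_part hA hBad)
  have hB : 0 < Pe F.p (fun ω => A ω ∧ ¬ Bad ω) := lt_of_lt_of_le (by positivity) hBm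
  -- the digits
  have hwJ0 : 0 ≤ (w₁ : ℝ) * J := mul_nonneg hw10 hJ0
  have hpJ0 : 0 ≤ (pf : ℝ) * J := mul_nonneg hpf0 hJ0
  have hQJ0 : 0 ≤ Qr * J := mul_nonneg hQr0 hJ0
  have hPJ0 : 0 ≤ Pr * J := mul_nonneg hPr0 hJ0
  have gf1 := Nat.floor_le hwJ0
  have gf2 := Nat.lt_floor_add_one ((w₁ : ℝ) * J)
  have gf3 := Nat.floor_le hpJ0
  have gf4 := Nat.lt_floor_add_one ((pf : ℝ) * J)
  have gf5 := Nat.floor_le hQJ0
  have gf6 := Nat.lt_floor_add_one (Qr * J)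
  have gf7 := Nat.floor_le hPJ0
  have gf8 := Nat.lt_floor_add_one (Pr * J)
  have hQMQ : ⌊Qr * J⌋₊ ≤ ⌊(pf : ℝ) * J⌋₊ :=
    Nat.floor_le_floor (mul_le_mul_of_nonneg_right hpfQ hJ0)
  have hnQ : ⌊Pr * J⌋₊ ≤ ⌊Qr * J⌋₊ :=
    Nat.floor_le_floor (mul_le_mul_of_nonneg_right hPQ1.le hJ0)
  obtain ⟨M, hM⟩ : ∃ M, M + ⌊Qr * J⌋₊ = ⌊(pf : ℝ) * J⌋₊ :=
    ⟨⌊(pf : ℝ) * J⌋₊ - ⌊Qr * J⌋₊, by omega⟩
  have hMr : (M : ℝ) + ⌊Qr * J⌋₊ = ⌊(pf : ℝ) * J⌋₊ := by exact_mod_cast hM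
  have hM0 : (0 : ℝ) ≤ M := Nat.cast_nonneg M
  have k1 : ((w₁ : ℝ) + pf) * J ≤ (sn 0 w + (T + 3) * u) * J :=
    mul_le_mul_of_nonneg_right hwpf hJ0
  have k2 : (sn 0 w + (T + 3) * u) * J ≤ 1 * J := mul_le_mul_of_nonneg_right hs01 hJ0
  have k3 : (sn 0 w + (T + 1) * u) * J ≤ ((w₁ : ℝ) + pf) * J :=
    mul_le_mul_of_nonneg_right hwpf1 hJ0
  have k4 : (pf : ℝ) * J ≤ (a0 + (T + 2) * u) * J := mul_le_mul_of_nonneg_right hpf2.le hJ0
  have k5 : Qr * J = (a0 + (1 + 6 * φ₁) * u) * J := by rw [hQr]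
  have k6 : Qr * J - Pr * J = φ₁ * u * J := by rw [← sub_mul, hPQ]
  have hφuJ : 0 ≤ φ₁ * u * J := mul_nonneg hφu.le hJ0
  have hsumJ : ⌊(w₁ : ℝ) * J⌋₊ + M + ⌊Qr * J⌋₊ ≤ J := by
    have : ((⌊(w₁ : ℝ) * J⌋₊ + M + ⌊Qr * J⌋₊ : ℕ) : ℝ) ≤ J := by
      push_cast
      linarith only [gf1, gf3, hMr, k1, k2]
    exact_mod_cast this
  have hWM : ⌊(w₁ : ℝ) * J⌋₊ + M ≤ J := by omega
  have hHt := Htime _ hBA hBm
  have hHf := Hfree _ hBA hBm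
  rw [← hM] at hHf
  have main : CH (Pool.Agent.H49.Ent.cond F.p (fun ω => A ω ∧ ¬ Bad ω) True) uu
      (fun ω => (cR F A (w₁ : ℝ) ω, yQ ((range 1).image c) Pn ln J F ω)) ≤
      5 * (δ * u / 40 * J) + (2 * ((f : ℝ) + 1) + 2) * (((⌊Qr * J⌋₊ - ⌊Pr * J⌋₊ + 1 : ℕ) : ℝ) + 6) +
        δ / (16 * (T + 2)) * ((M + 2) * Real.log 2) := by
    refine near_smp (Nf := Nf) (NX := ⌊(w₁ : ℝ) * J⌋₊ + M + ⌊Qr * J⌋₊) (Pf := sn 0 w + T * u)
      (lf := sn 0 w - w + T * u) (e₁ := δ * u / 400 * J) (e₂ := (e * u + δ * u / 400) * J)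
      (e₄ := Real.log 7) (ef := (df + δ * u / 400) * J) ht v0 (fun j hj => (hv j hj).2.2) hx'1 hw1
      hw1x hB hcut ?_ (fun l hl => (hNn l hl).trans (hNf l hl)) hcode hz hWM hnQ le_rfl le_rfl ?_
      ?_ ?_ ?_ ?_ ?_ (fun R' R hR' => hHt.2.2 _ (by omega) R' R hR') hHf ?_ ?_ ?_ ?_ ?_
    · -- the comparison
      intro ω ω' h1 h2 h3 h4 h5 h6 l hl
      have h7 := hdif ω ω' h1 h2 h3 h4 h5 l hl
      have h8 := hNn l hl
      have h9 : |F.d ω' (c 0) - F.d ω (c 0)| ≤ 1 / 2 ^ ⌊Pr * J⌋₊ :=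
        Pool.NS95.fl_eq (show ⌊(2 : ℝ) ^ ⌊Pr * J⌋₊ * F.d ω' (c 0)⌋ =
          ⌊(2 : ℝ) ^ ⌊Pr * J⌋₊ * F.d ω (c 0)⌋ from h6.symm)
      refine hgd_of h9 gf8.le h7 (y := φ₁ * u) ?_ ?_ c1
      · rw [vN, hθf]
        have h10 : (R - 1) * u ≤ x' - w := by linarith only [hxa]
        have h11 := mul_le_mul_of_nonneg_left h10 hs1.le
        have h12 := mul_le_mul_of_nonneg_right hRs hu.le
        linarith only [h8, h11, h12, hφu16, hu]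
      · rw [hθf]
        linarith only [h8, hPr, ha0, hφu]
    · -- far positions
      refine Nat.floor_le_of_le ?_
      push_cast
      linarith only [gf2, gf4, hMr, k3, c2]
    · rw [hM]
      refine Nat.floor_le_floor (mul_le_mul_of_nonneg_right ?_ hJ0)
      linarith only [hpf1, ha0, hu]
    · refine Nat.le_floor ?_
      push_cast
      have h1 : ((w₁ : ℝ) + Qr) * J ≤ Pn * J := by
        refine mul_le_mul_of_nonneg_right ?_ hJ0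
        linarith only [hw2, hQr, ha0, hPn, hφu]
      linarith only [gf1, gf5, h1]
    · refine Nat.floor_le_floor (mul_le_mul_of_nonneg_right ?_ hJ0)
      linarith only [hPr, ha0, hln, hφu]
    · exact Hfar _ hBA hBm _ ((qVel m c 1 (f + 1) 1 bl pl Nf).sub hBA (hQ Nf 0 ef₀ he02))
    · refine le_trans ?_ (hHt.2.1 _ M hWM)
      linarith only [hδuJ]
    · refine Hhx _ hBA hBm _ ?_
      push_cast
      linarith only [gf1, gf3, hMr, k1]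
    · linarith only [hδuJ]
    · have h1 := mul_le_mul_of_nonneg_right heδ hJ0
      linarith only [h1, hδuJ, c5]
    · have h1 := mul_le_mul_of_nonneg_right hdf hJ0
      linarith only [h1, hδuJ, c4]
    · exact Hsep _ hBA hBm _ M _ hsumJ
  -- the whole
  obtain ⟨E, hE⟩ : ∃ E : ℝ, E = 5 * (δ * u / 40 * J) + (2 * ((f : ℝ) + 1) + 2) *
    (((⌊Qr * J⌋₊ - ⌊Pr * J⌋₊ + 1 : ℕ) : ℝ) + 6) +
      δ / (16 * (T + 2)) * ((M + 2) * Real.log 2) := ⟨_, rfl⟩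
  rw [← hE] at main
  have hE0 : 0 ≤ E := by
    rw [hE]
    positivity
  have hcnt : (cnt F.p uu A : ℝ) ≤ Real.exp (Mu * J) := by
    rw [hMu]
    refine cnt_seq F.p (fun l hl => ?_) hz
    exact cnt_cfl (by omega) fun ω hω => hcode ω hω l (by omega)
  have hfin := few_up F.isLaw hA hBad (mul_nonneg hMu0 hJ0) hE0 hcnt main
  refine ⟨_, cR F A w₁, Pool.VG83.cl_cR F A w₁, hfin.trans ?_⟩
  have r1 : ((⌊Qr * J⌋₊ - ⌊Pr * J⌋₊ + 1 : ℕ) : ℝ) ≤ φ₁ * u * J + 2 := by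
    rw [Nat.cast_add, Nat.cast_sub hnQ, Nat.cast_one]
    linarith only [gf5, gf8, k6]
  have r2 : (2 * ((f : ℝ) + 1) + 2) * (((⌊Qr * J⌋₊ - ⌊Pr * J⌋₊ + 1 : ℕ) : ℝ) + 6) ≤
      (2 * ((f : ℝ) + 1) + 2) * (φ₁ * u * J + 8) :=
    mul_le_mul_of_nonneg_left (by linarith only [r1]) (by positivity)
  have r3 : 20 * ((f : ℝ) + 2) * φ₁ * (u * J) ≤ δ * (u * J) :=
    mul_le_mul_of_nonneg_right hφδ (by positivity)
  have r4 : (M : ℝ) + 2 ≤ (T + 2) * (u * J) := by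
    linarith only [hMr, gf3, gf6, k4, k5, c2, hφuJ]
  have r5 : ((M : ℝ) + 2) * Real.log 2 ≤ (T + 2) * (u * J) := by
    refine (mul_le_mul r4 hl21 hl2.le (by positivity)).trans (le_of_eq (mul_one _))
  have r6 : δ / (16 * (T + 2)) * ((M + 2) * Real.log 2) ≤ δ * u / 16 * J := by
    refine (mul_le_mul_of_nonneg_left r5 hδs.le).trans (le_of_eq ?_)
    field_simp
  have r7 : η * (Mu * J) ≤ δ * u / 16 * J := by
    rw [← mul_assoc]
    exact mul_le_mul_of_nonneg_right hηM hJ0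
  have r8 : 0 ≤ h * J := by positivity
  rw [hE]
  linarith only [r2, r3, r6, r7, r8, c3, hδuJ]

end Pool.FDV4
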